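import Pool.Agent.Lib.MP_79396e_al.Defect

open SimpleGraph MeasureTheory Filter Topology
open scoped ENNReal NNReal

namespace Pool.Agent.OuterSpace

namespace OuterTree

open Boundary

variable {N : ℕ} {T S : OuterTree N}

open Classical in
/-- the darts that follow a given dart -/
noncomputable def children (T : OuterTree N) (d : T.graph.Dart) : Finset T.graph.Dart :=
  (T.darts_at_finite d.snd).toFinset.filter (· ≠ d.symm)

@[simp] theorem mem_children {d c : T.graph.Dart} :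
    c ∈ T.children d ↔ c.fst = d.snd ∧ c ≠ d.symm := by
  simp [children]

theorem shadow_child_subset {d c : T.graph.Dart} (h : c ∈ T.children d) :
    T.shadow c ⊆ T.shadow d := by
  rw [mem_children] at h
  exact T.shadow_mono (child_subset h.1 h.2)

theorem dir_mem_children {d : T.graph.Dart} {ζ : Boundary N} (h : ζ ∈ T.shadow d) :
    T.dir d.snd ζ ∈ T.children d := by
  rw [mem_children]
  refine ⟨T.dir_fst _ _, fun h2 => ?_⟩
  have h3 := T.mem_shadow_dir d.snd ζ
  rw [h2, T.mem_shadow_symm_iff] at h3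
  exact h3 h

theorem measure_shadow_children (ν : Measure (Boundary N)) (d : T.graph.Dart) :
    ν (T.shadow d) = ∑ c ∈ T.children d, ν (T.shadow c) := by
  have h1 : T.shadow d = ⋃ c ∈ T.children d, T.shadow c := by
    ext ζ
    rw [Set.mem_iUnion₂]
    constructor
    · intro h
      exact ⟨T.dir d.snd ζ, dir_mem_children h, T.mem_shadow_dir _ _⟩
    · rintro ⟨c, hc, h⟩
      exact shadow_child_subset hc h
  conv_lhs => rw [h1]
  rw [measure_biUnion_finset]
  · intro c hc c' hc' hne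
    rw [Function.onFun, Set.disjoint_left]
    intro ζ h h'
    rw [SetLike.mem_coe, mem_children] at hc hc'
    exact hne (T.shadow_unique (hc.1.trans hc'.1.symm) h h')
  · exact fun c _ => T.measurableSet_shadow c

theorem toReal_shadow_children (ν : Measure (Boundary N)) [IsFiniteMeasure ν]
    (d : T.graph.Dart) :
    (ν (T.shadow d)).toReal = ∑ c ∈ T.children d, (ν (T.shadow c)).toReal := by
  rw [measure_shadow_children ν d, ENNReal.toReal_sum]
  intro c _
  exact measure_ne_top _ _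

/-- The Hellinger affinity of two measures on the shadow of `d`, at depth `n`. -/
noncomputable def aff (T : OuterTree N) (ν1 ν2 : Measure (Boundary N)) : ℕ → T.graph.Dart → ℝ
  | 0, d => √((ν1 (T.shadow d)).toReal * (ν2 (T.shadow d)).toReal)
  | n + 1, d => ∑ c ∈ T.children d, aff T ν1 ν2 n c

variable {ν1 ν2 : Measure (Boundary N)}

theorem aff_zero (d : T.graph.Dart) :
    T.aff ν1 ν2 0 d = √((ν1 (T.shadow d)).toReal * (ν2 (T.shadow d)).toReal) := rfl

theorem aff_succ (n : ℕ) (d : T.graph.Dart) :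
    T.aff ν1 ν2 (n + 1) d = ∑ c ∈ T.children d, T.aff ν1 ν2 n c := rfl

theorem aff_nonneg (n : ℕ) : ∀ d : T.graph.Dart, 0 ≤ T.aff ν1 ν2 n d := by
  induction n with
  | zero => intro d; exact Real.sqrt_nonneg _
  | succ n ih => intro d; exact Finset.sum_nonneg fun c _ => ih c

theorem aff_one_le [IsFiniteMeasure ν1] [IsFiniteMeasure ν2] (d : T.graph.Dart) :
    T.aff ν1 ν2 1 d ≤ T.aff ν1 ν2 0 d := by
  rw [aff_succ, aff_zero, toReal_shadow_children ν1 d, toReal_shadow_children ν2 d,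
    Real.sqrt_mul (Finset.sum_nonneg fun c _ => ENNReal.toReal_nonneg)]
  have := Real.sum_sqrt_mul_sqrt_le (T.children d)
    (f := fun c => (ν1 (T.shadow c)).toReal) (g := fun c => (ν2 (T.shadow c)).toReal)
    (fun c => ENNReal.toReal_nonneg) (fun c => ENNReal.toReal_nonneg)
  refine le_trans (le_of_eq ?_) this
  apply Finset.sum_congr rfl
  intro c _
  rw [aff_zero, Real.sqrt_mul ENNReal.toReal_nonneg]

theorem aff_succ_le [IsFiniteMeasure ν1] [IsFiniteMeasure ν2] (n : ℕ) :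
    ∀ d : T.graph.Dart, T.aff ν1 ν2 (n + 1) d ≤ T.aff ν1 ν2 n d := by
  induction n with
  | zero => exact aff_one_le
  | succ n ih =>
    intro d
    rw [aff_succ, aff_succ n]
    exact Finset.sum_le_sum fun c _ => ih c

theorem aff_antitone [IsFiniteMeasure ν1] [IsFiniteMeasure ν2] (d : T.graph.Dart) {m n : ℕ}
    (h : m ≤ n) : T.aff ν1 ν2 n d ≤ T.aff ν1 ν2 m d := by
  induction n, h using Nat.le_induction with
  | base => exact le_rfl
  | succ n _ ih => exact (aff_succ_le n d).trans ih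

/-- the boundary points beyond `d` for which the shadow at depth `n` is good -/
def goodSet (T : OuterTree N) (ν1 ν2 : Measure (Boundary N)) (κ : ℝ≥0∞) (n : ℕ)
    (d : T.graph.Dart) : Set (Boundary N) :=
  {ζ | ζ ∈ T.shadow d ∧ κ * ν1 (T.shadow (T.dir ((T.step ζ)^[n] d.fst) ζ)) ≤
    ν2 (T.shadow (T.dir ((T.step ζ)^[n] d.fst) ζ))}

theorem le_aff [IsFiniteMeasure ν1] [IsFiniteMeasure ν2] (κ : ℝ≥0∞) (n : ℕ) :
    ∀ d : T.graph.Dart, √κ.toReal * (ν1 (goodSet T ν1 ν2 κ n d)).toReal ≤ T.aff ν1 ν2 n d := by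
  induction n with
  | zero =>
    intro d
    by_cases h : κ * ν1 (T.shadow d) ≤ ν2 (T.shadow d)
    · have h1 : (ν1 (goodSet T ν1 ν2 κ 0 d)).toReal ≤ (ν1 (T.shadow d)).toReal :=
        ENNReal.toReal_mono (measure_ne_top _ _) (measure_mono fun ζ hζ => hζ.1)
      have h2 : κ.toReal * (ν1 (T.shadow d)).toReal ≤ (ν2 (T.shadow d)).toReal := by
        rw [← ENNReal.toReal_mul]
        exact ENNReal.toReal_mono (measure_ne_top _ _) h
      rw [aff_zero]
      apply Real.le_sqrt_of_sq_le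
      rw [mul_pow, Real.sq_sqrt ENNReal.toReal_nonneg]
      have h3 : 0 ≤ (ν1 (T.shadow d)).toReal := ENNReal.toReal_nonneg
      have h4 : 0 ≤ (ν1 (goodSet T ν1 ν2 κ 0 d)).toReal := ENNReal.toReal_nonneg
      have h5 : 0 ≤ κ.toReal := ENNReal.toReal_nonneg
      have h6 : (ν1 (goodSet T ν1 ν2 κ 0 d)).toReal ^ 2 ≤ (ν1 (T.shadow d)).toReal ^ 2 :=
        pow_le_pow_left₀ h4 h1 2
      nlinarith [mul_le_mul_of_nonneg_left h6 h5, mul_le_mul_of_nonneg_left h2 h3]
    · have h1 : goodSet T ν1 ν2 κ 0 d = ∅ := by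
        rw [Set.eq_empty_iff_forall_notMem]
        rintro ζ ⟨h2, h3⟩
        rw [Function.iterate_zero, id, T.dir_eq (d := d) rfl h2] at h3
        exact h h3
      rw [h1, measure_empty, ENNReal.toReal_zero, mul_zero]
      exact aff_nonneg 0 d
  | succ n ih =>
    intro d
    have hsub : goodSet T ν1 ν2 κ (n + 1) d ⊆ ⋃ c ∈ T.children d, goodSet T ν1 ν2 κ n c := by
      rintro ζ ⟨h1, h2⟩
      rw [Set.mem_iUnion₂]
      refine ⟨T.dir d.snd ζ, dir_mem_children h1, T.mem_shadow_dir _ _, ?_⟩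
      rw [Function.iterate_succ_apply] at h2
      have h3 : T.step ζ d.fst = d.snd := by
        show (T.dir d.fst ζ).snd = d.snd
        rw [T.dir_eq (d := d) rfl h1]
      rw [h3] at h2
      rw [dir_fst]
      exact h2
    have h1 : ν1 (goodSet T ν1 ν2 κ (n + 1) d) ≤
        ∑ c ∈ T.children d, ν1 (goodSet T ν1 ν2 κ n c) :=
      (measure_mono hsub).trans (measure_biUnion_finset_le _ _)
    have h2 : (ν1 (goodSet T ν1 ν2 κ (n + 1) d)).toReal ≤
        ∑ c ∈ T.children d, (ν1 (goodSet T ν1 ν2 κ n c)).toReal := by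
      rw [← ENNReal.toReal_sum (fun c _ => measure_ne_top _ _)]
      exact ENNReal.toReal_mono (ENNReal.sum_ne_top.2 fun c _ => measure_ne_top _ _) h1
    calc √κ.toReal * (ν1 (goodSet T ν1 ν2 κ (n + 1) d)).toReal
        ≤ √κ.toReal * ∑ c ∈ T.children d, (ν1 (goodSet T ν1 ν2 κ n c)).toReal :=
          mul_le_mul_of_nonneg_left h2 (Real.sqrt_nonneg _)
      _ = ∑ c ∈ T.children d, √κ.toReal * (ν1 (goodSet T ν1 ν2 κ n c)).toReal :=
          Finset.mul_sum _ _ _
      _ ≤ ∑ c ∈ T.children d, T.aff ν1 ν2 n c := Finset.sum_le_sum fun c _ => ih c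
      _ = _ := rfl

/-- the darts at a vertex -/
noncomputable def dartsAt (T : OuterTree N) (u : T.V) : Finset T.graph.Dart :=
  (T.darts_at_finite u).toFinset

@[simp] theorem mem_dartsAt {u : T.V} {d : T.graph.Dart} : d ∈ T.dartsAt u ↔ d.fst = u := by
  simp [dartsAt]

theorem le_sum_aff [IsFiniteMeasure ν1] [IsFiniteMeasure ν2] (κ : ℝ≥0∞) (n : ℕ) (u : T.V) :
    √κ.toReal * (ν1 {ζ | κ * ν1 (T.shadow (T.dir ((T.step ζ)^[n] u) ζ)) ≤
      ν2 (T.shadow (T.dir ((T.step ζ)^[n] u) ζ))}).toReal ≤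
      ∑ d ∈ T.dartsAt u, T.aff ν1 ν2 n d := by
  have hsub : {ζ | κ * ν1 (T.shadow (T.dir ((T.step ζ)^[n] u) ζ)) ≤
      ν2 (T.shadow (T.dir ((T.step ζ)^[n] u) ζ))} ⊆
      ⋃ c ∈ T.dartsAt u, goodSet T ν1 ν2 κ n c := by
    intro ζ hζ
    rw [Set.mem_iUnion₂]
    refine ⟨T.dir u ζ, by simp, T.mem_shadow_dir _ _, ?_⟩
    rw [dir_fst]
    exact hζ
  have h1 := (measure_mono (μ := ν1) hsub).trans (measure_biUnion_finset_le _ _)
  have h2 := ENNReal.toReal_mono (ENNReal.sum_ne_top.2 fun c _ => measure_ne_top _ _) h1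
  rw [ENNReal.toReal_sum (fun c _ => measure_ne_top _ _)] at h2
  calc _ ≤ √κ.toReal * ∑ c ∈ T.dartsAt u, (ν1 (goodSet T ν1 ν2 κ n c)).toReal :=
        mul_le_mul_of_nonneg_left h2 (Real.sqrt_nonneg _)
    _ = ∑ c ∈ T.dartsAt u, √κ.toReal * (ν1 (goodSet T ν1 ν2 κ n c)).toReal :=
        Finset.mul_sum _ _ _
    _ ≤ _ := Finset.sum_le_sum fun c _ => le_aff κ n c

/-- Contraction of the affinities. -/
theorem aff_contract [IsFiniteMeasure ν1] [IsFiniteMeasure ν2] (u : T.V) (m : ℕ) (r : ℝ)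
    (h : ∀ d : T.graph.Dart, u ∉ T.halfTree d → T.aff ν1 ν2 m d ≤ r * T.aff ν1 ν2 0 d) (n : ℕ) :
    ∀ d : T.graph.Dart, u ∉ T.halfTree d → T.aff ν1 ν2 (n + m) d ≤ r * T.aff ν1 ν2 n d := by
  induction n with
  | zero => intro d hd; rw [zero_add]; exact h d hd
  | succ n ih =>
    intro d hd
    have h1 : n + 1 + m = (n + m) + 1 := by ring
    rw [h1, aff_succ, aff_succ, Finset.mul_sum]
    apply Finset.sum_le_sum
    intro c hc
    apply ih
    intro h2
    rw [mem_children] at hc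
    exact hd (child_subset hc.1 hc.2 h2)

theorem aff_contract_pow [IsFiniteMeasure ν1] [IsFiniteMeasure ν2] (u : T.V) (m : ℕ) {r : ℝ}
    (hr : 0 ≤ r)
    (h : ∀ d : T.graph.Dart, u ∉ T.halfTree d → T.aff ν1 ν2 m d ≤ r * T.aff ν1 ν2 0 d) (k : ℕ)
    (d : T.graph.Dart) (hd : u ∉ T.halfTree d) :
    T.aff ν1 ν2 (k * m) d ≤ r ^ k * T.aff ν1 ν2 0 d := by
  induction k with
  | zero => simp
  | succ k ih =>
    have h1 : (k + 1) * m = k * m + m := by ring
    rw [h1]
    refine (aff_contract u m r h (k * m) d hd).trans ?_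
    rw [pow_succ', mul_assoc]
    exact mul_le_mul_of_nonneg_left ih hr

end OuterTree

end Pool.Agent.OuterSpace
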