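import Pool.Agent.Lib.MP_79396e_al.Reduced

open SimpleGraph MeasureTheory Filter Topology
open scoped ENNReal NNReal

namespace Pool.Agent.OuterSpace

namespace OuterTree

open Boundary

variable {N : ℕ} {T S : OuterTree N} {ξ ζ : Boundary N}

theorem not_both {u : T.V} (hu : u ∈ T.line ξ ζ) {e : T.graph.Dart} (he : u ∉ T.halfTree e) :
    ¬ (ξ ∈ T.shadow e ∧ ζ ∈ T.shadow e) := by
  rintro ⟨h1, h2⟩
  have hne : u ≠ e.snd := by
    rintro rfl
    exact he (T.snd_mem_halfTree e)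
  obtain ⟨d, hd, hd2⟩ := T.exists_dart hne
  have hsub : T.halfTree e ⊆ T.halfTree d := by
    intro z hz
    have h3 : d.fst ∉ T.halfTree e := by rw [hd]; exact he
    exact (T.nested (Or.inl h3) hz).2 hd2
  apply hu
  rw [T.dir_eq hd (T.shadow_mono hsub h1), T.dir_eq hd (T.shadow_mono hsub h2)]

open Classical in
/-- the indicator of a shadow -/
noncomputable def ind (T : OuterTree N) (ξ : Boundary N) (e : T.graph.Dart) : ℝ :=
  if ξ ∈ T.shadow e then 1 else 0

/-- The Gromov product as a sum over the oriented edges. -/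
theorem gromov_sum (x : T.V) {u : T.V} (hu : u ∈ T.line ξ ζ) (F : Finset T.graph.Dart)
    (hF1 : ∀ e ∈ F, x ∉ T.halfTree e) (hF2 : T.sepF x u ⊆ F) :
    T.gromov x ξ ζ = ∑ e ∈ F, T.dlen e * (T.ind ξ e * T.ind ζ e) := by
  classical
  rw [T.gromov_eq hu x, busemann_eq, busemann_eq]
  unfold bus
  rw [← Finset.sum_add_distrib, Finset.sum_div]
  have h1 : ∀ e ∈ F, e ∉ T.sepF x u → T.dlen e * (T.ind ξ e * T.ind ζ e) = 0 := by
    intro e he he2
    have h2 : u ∉ T.halfTree e := by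
      intro h2
      exact he2 (T.mem_sepF.2 ⟨hF1 e he, h2⟩)
    have h3 := not_both hu h2
    unfold ind
    split_ifs with h4 h5
    · exact absurd ⟨h4, h5⟩ h3
    all_goals simp
  rw [← Finset.sum_subset hF2 h1]
  apply Finset.sum_congr rfl
  intro e he
  rw [mem_sepF] at he
  have h2 : u ∉ T.halfTree e.symm := by rw [T.mem_symm_iff, not_not]; exact he.2
  have h3 := not_both hu h2
  rw [T.mem_shadow_symm_iff, T.mem_shadow_symm_iff] at h3
  unfold ind
  split_ifs with h4 h5 h5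
  · ring
  · ring
  · ring
  · exact absurd ⟨h4, h5⟩ h3

theorem gromov_nonneg (x : T.V) (hne : ξ ≠ ζ) : 0 ≤ T.gromov x ξ ζ := by
  classical
  obtain ⟨u, hu⟩ := T.line_nonempty hne
  rw [gromov_sum x hu (T.sepF x u) (fun e he => (T.mem_sepF.1 he).1) subset_rfl]
  apply Finset.sum_nonneg
  intro e _
  apply mul_nonneg (T.dlen_pos e).le
  unfold ind
  split_ifs <;> simp

theorem gromov_self_line {u : T.V} (hu : u ∈ T.line ξ ζ) : T.gromov u ξ ζ = 0 := by
  rw [T.gromov_eq hu, busemann_self, busemann_self]; ring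

theorem gromov_base (x y : T.V) (hne : ξ ≠ ζ) : T.gromov y ξ ζ =
    T.gromov x ξ ζ + (T.busemann ξ y x + T.busemann ζ y x) / 2 := by
  obtain ⟨u, hu⟩ := T.line_nonempty hne
  rw [T.gromov_eq hu, T.gromov_eq hu, T.busemann_cocycle ξ y x u, T.busemann_cocycle ζ y x u]
  ring

/-- The cross ratio of four boundary points. -/
noncomputable def cr (T : OuterTree N) (x : T.V) (a b c d : Boundary N) : ℝ :=
  T.gromov x a b + T.gromov x c d - T.gromov x a c - T.gromov x b d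

/-- four distinct boundary points -/
structure Distinct4 (a b c d : Boundary N) : Prop where
  ab : a ≠ b
  ac : a ≠ c
  ad : a ≠ d
  bc : b ≠ c
  bd : b ≠ d
  cd : c ≠ d

variable {a b c d : Boundary N}

theorem cr_base (h : Distinct4 a b c d) (x y : T.V) : T.cr x a b c d = T.cr y a b c d := by
  unfold cr
  rw [gromov_base x y h.ab, gromov_base x y h.cd, gromov_base x y h.ac, gromov_base x y h.bd]
  ring

theorem cr_sum (h : Distinct4 a b c d) (x : T.V) : ∃ F : Finset T.graph.Dart,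
    (∀ e ∈ F, x ∉ T.halfTree e) ∧
    (∀ e, x ∉ T.halfTree e → ((a ∈ T.shadow e ∧ b ∈ T.shadow e) ∨
      (c ∈ T.shadow e ∧ d ∈ T.shadow e)) → e ∈ F) ∧
    T.cr x a b c d = ∑ e ∈ F, T.dlen e * ((T.ind a e - T.ind d e) * (T.ind b e - T.ind c e)) := by
  classical
  obtain ⟨u1, hu1⟩ := T.line_nonempty h.ab
  obtain ⟨u2, hu2⟩ := T.line_nonempty h.cd
  obtain ⟨u3, hu3⟩ := T.line_nonempty h.ac
  obtain ⟨u4, hu4⟩ := T.line_nonempty h.bd
  refine ⟨T.sepF x u1 ∪ T.sepF x u2 ∪ T.sepF x u3 ∪ T.sepF x u4, ?_, ?_, ?_⟩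
  · intro e he
    simp only [Finset.mem_union, mem_sepF] at he
    tauto
  · intro e he h1
    simp only [Finset.mem_union, mem_sepF]
    rcases h1 with h1 | h1
    · have h2 : u1 ∈ T.halfTree e := by
        by_contra h2
        exact not_both hu1 h2 h1
      tauto
    · have h2 : u2 ∈ T.halfTree e := by
        by_contra h2
        exact not_both hu2 h2 h1
      tauto
  · have hF1 : ∀ e ∈ T.sepF x u1 ∪ T.sepF x u2 ∪ T.sepF x u3 ∪ T.sepF x u4, x ∉ T.halfTree e := by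
      intro e he
      simp only [Finset.mem_union, mem_sepF] at he
      tauto
    unfold cr
    rw [gromov_sum x hu1 _ hF1, gromov_sum x hu2 _ hF1, gromov_sum x hu3 _ hF1,
      gromov_sum x hu4 _ hF1, ← Finset.sum_add_distrib, ← Finset.sum_sub_distrib,
      ← Finset.sum_sub_distrib]
    · apply Finset.sum_congr rfl
      intro e _
      ring
    all_goals
      intro e he
      simp only [Finset.mem_union]
      tauto

open Classical in
theorem ind_aux (p q r s : Prop) (h1 : ¬ (p ∧ ¬ q ∧ r ∧ ¬ s)) (h2 : ¬ (¬ p ∧ q ∧ ¬ r ∧ s)) :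
    0 ≤ ((if p then (1 : ℝ) else 0) - (if s then 1 else 0)) *
      ((if q then (1 : ℝ) else 0) - (if r then 1 else 0)) := by
  by_cases hp : p <;> by_cases hq : q <;> by_cases hr : r <;> by_cases hs : s <;>
    simp [hp, hq, hr, hs] at h1 h2 ⊢

open Classical in
theorem ind_aux2 (p q r s : Prop) (h : 0 < ((if p then (1 : ℝ) else 0) - (if s then 1 else 0)) *
      ((if q then (1 : ℝ) else 0) - (if r then 1 else 0))) :
    (p ∧ q ∧ ¬ r ∧ ¬ s) ∨ (¬ p ∧ ¬ q ∧ r ∧ s) := by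
  by_cases hp : p <;> by_cases hq : q <;> by_cases hr : r <;> by_cases hs : s <;>
    simp [hp, hq, hr, hs] at h ⊢ <;> linarith

/-- The cross ratio is at least the length of every edge that separates the two pairs. -/
theorem le_cr (h : Distinct4 a b c d) (x : T.V) {e : T.graph.Dart} (ha : a ∉ T.shadow e)
    (hb : b ∉ T.shadow e) (hc : c ∈ T.shadow e) (hd : d ∈ T.shadow e) :
    T.dlen e ≤ T.cr x a b c d := by
  classical
  obtain ⟨F, hF1, hF2, hF⟩ := cr_sum h x
  rw [hF]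
  have hnn : ∀ e' ∈ F, 0 ≤ T.dlen e' *
      ((T.ind a e' - T.ind d e') * (T.ind b e' - T.ind c e')) := by
    intro e' _
    apply mul_nonneg (T.dlen_pos e').le
    have h1 : ¬ (a ∈ T.shadow e' ∧ b ∉ T.shadow e' ∧ c ∈ T.shadow e' ∧ d ∉ T.shadow e') := by
      rintro ⟨h1, h2, h3, h4⟩
      rcases halfTree_cases e' e with h5 | h5 | h5 | h5
      · exact ha (T.shadow_mono h5 h1)
      · exact h4 (T.shadow_mono h5 hd)
      · exact shadow_disjoint_of_halfTree h5 h3 hc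
      · rw [← T.mem_shadow_symm_iff] at hb h2
        exact shadow_disjoint_of_halfTree h5 h2 hb
    have h2 : ¬ (a ∉ T.shadow e' ∧ b ∈ T.shadow e' ∧ c ∉ T.shadow e' ∧ d ∈ T.shadow e') := by
      rintro ⟨h1, h2, h3, h4⟩
      rcases halfTree_cases e' e with h5 | h5 | h5 | h5
      · exact hb (T.shadow_mono h5 h2)
      · exact h3 (T.shadow_mono h5 hc)
      · exact shadow_disjoint_of_halfTree h5 h4 hd
      · rw [← T.mem_shadow_symm_iff] at ha h1
        exact shadow_disjoint_of_halfTree h5 h1 ha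
    exact ind_aux _ _ _ _ h1 h2
  by_cases hx : x ∈ T.halfTree e
  · have hx' : x ∉ T.halfTree e.symm := by rw [T.mem_symm_iff, not_not]; exact hx
    have hmem : e.symm ∈ F := by
      apply hF2 _ hx'
      left
      rw [T.mem_shadow_symm_iff, T.mem_shadow_symm_iff]
      exact ⟨ha, hb⟩
    refine le_trans (le_of_eq ?_) (Finset.single_le_sum hnn hmem)
    have h1 : T.ind a e.symm = 1 := if_pos ((T.mem_shadow_symm_iff e a).2 ha)
    have h2 : T.ind b e.symm = 1 := if_pos ((T.mem_shadow_symm_iff e b).2 hb)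
    have h3 : T.ind c e.symm = 0 := if_neg (fun h => (T.mem_shadow_symm_iff e c).1 h hc)
    have h4 : T.ind d e.symm = 0 := if_neg (fun h => (T.mem_shadow_symm_iff e d).1 h hd)
    rw [h1, h2, h3, h4, dlen_symm]
    ring
  · have hmem : e ∈ F := hF2 _ hx (Or.inr ⟨hc, hd⟩)
    refine le_trans (le_of_eq ?_) (Finset.single_le_sum hnn hmem)
    have h1 : T.ind a e = 0 := if_neg ha
    have h2 : T.ind b e = 0 := if_neg hb
    have h3 : T.ind c e = 1 := if_pos hc
    have h4 : T.ind d e = 1 := if_pos hd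
    rw [h1, h2, h3, h4]
    ring

/-- If the cross ratio is positive then an edge separates the two pairs. -/
theorem exists_of_cr_pos (h : Distinct4 a b c d) (x : T.V) (hpos : 0 < T.cr x a b c d) :
    ∃ e : T.graph.Dart, a ∉ T.shadow e ∧ b ∉ T.shadow e ∧ c ∈ T.shadow e ∧ d ∈ T.shadow e := by
  classical
  obtain ⟨F, hF1, hF2, hF⟩ := cr_sum h x
  rw [hF] at hpos
  obtain ⟨e, _, he⟩ := Finset.exists_lt_of_sum_lt
    (f := fun _ : T.graph.Dart => (0 : ℝ)) (by simpa using hpos)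
  have h1 : 0 < (T.ind a e - T.ind d e) * (T.ind b e - T.ind c e) := by
    by_contra hcon
    push Not at hcon
    have := mul_nonpos_of_nonneg_of_nonpos (T.dlen_pos e).le hcon
    linarith
  have h2 : (a ∈ T.shadow e ∧ b ∈ T.shadow e ∧ c ∉ T.shadow e ∧ d ∉ T.shadow e) ∨
      (a ∉ T.shadow e ∧ b ∉ T.shadow e ∧ c ∈ T.shadow e ∧ d ∈ T.shadow e) :=
    ind_aux2 _ _ _ _ h1
  rcases h2 with h2 | h2
  · refine ⟨e.symm, ?_⟩
    simp only [T.mem_shadow_symm_iff, not_not]
    exact h2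
  · exact ⟨e, h2⟩

/-- The cross ratio is nonpositive if the two lines meet. -/
theorem cr_nonpos (h : Distinct4 a b c d) (x : T.V) {p : T.V} (h1 : p ∈ T.line a b)
    (h2 : p ∈ T.line c d) : T.cr x a b c d ≤ 0 := by
  rw [cr_base h x p]
  unfold cr
  rw [gromov_self_line h1, gromov_self_line h2]
  linarith [gromov_nonneg p h.ac, gromov_nonneg p h.bd]

theorem cr_le_dist (h : Distinct4 a b c d) (x : T.V) {p q : T.V} (h1 : p ∈ T.line a b)
    (h2 : q ∈ T.line c d) : T.cr x a b c d ≤ T.dist p q := by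
  rw [cr_base h x p]
  unfold cr
  rw [gromov_self_line h1, T.gromov_eq h2]
  linarith [gromov_nonneg p h.ac, gromov_nonneg p h.bd, T.busemann_le c p q, T.busemann_le d p q]

theorem dist_fst_snd (e : T.graph.Dart) : T.dist e.fst e.snd = T.dlen e := by
  classical
  rw [dist_eq_sum]
  have : T.sepF e.fst e.snd = {e} := by
    ext d
    rw [mem_sepF, Finset.mem_singleton]
    constructor
    · rintro ⟨h1, h2⟩
      exact (T.dart_eq_of_cross d e h1 h2).symm
    · rintro rfl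
      exact ⟨T.fst_not_mem _, T.snd_mem_halfTree _⟩
  rw [this, Finset.sum_singleton]

theorem fst_mem_line {e : T.graph.Dart} {η ω : Boundary N} (h1 : η ∉ T.shadow e)
    (h2 : ω ∈ T.shadow e) : e.fst ∈ T.line η ω := by
  intro h
  rw [T.dir_eq (d := e) rfl h2] at h
  apply h1
  rw [← h]
  exact T.mem_shadow_dir _ _

theorem snd_mem_line {e : T.graph.Dart} {η ω : Boundary N} (h1 : η ∉ T.shadow e)
    (h2 : ω ∈ T.shadow e) : e.snd ∈ T.line η ω := by
  rw [line_symm]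
  have h3 : ω ∉ T.shadow e.symm := by rw [T.mem_shadow_symm_iff, not_not]; exact h2
  have h4 : η ∈ T.shadow e.symm := by rw [T.mem_shadow_symm_iff]; exact h1
  exact fst_mem_line (e := e.symm) h3 h4

theorem mem_line_of_dirs {d1 d2 : T.graph.Dart} (h : d1.fst = d2.fst) (hne : d1 ≠ d2)
    {η ω : Boundary N} (h1 : η ∈ T.shadow d1) (h2 : ω ∈ T.shadow d2) : d1.fst ∈ T.line η ω := by
  intro h3
  rw [T.dir_eq (d := d1) rfl h1, T.dir_eq (d := d2) h.symm h2] at h3
  exact hne h3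

/-- Reconstruction of the edges from the cross ratio. -/
theorem exists_dart_of_cr (hTr : T.IsReduced) {α β : ℝ} (hα : 0 < α) (hβ : 0 < β)
    (x : T.V) (y : S.V)
    (hcr : ∀ a b c d : Boundary N, Distinct4 a b c d →
      α * T.cr x a b c d = β * S.cr y a b c d) (e : T.graph.Dart) :
    ∃ e' : S.graph.Dart, S.shadow e' = T.shadow e ∧ β * S.dlen e' ≤ α * T.dlen e := by
  obtain ⟨d1, hd1, hd1e, _⟩ := third_dart hTr e e
  obtain ⟨d2, hd2, hd2e, hd21⟩ := third_dart hTr e d1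
  obtain ⟨c1, hc1, hc1e, _⟩ := third_dart hTr e.symm e.symm
  obtain ⟨c2, hc2, hc2e, hc21⟩ := third_dart hTr e.symm c1
  obtain ⟨ξ1, hξ1⟩ := shadow_nonempty hTr d1
  obtain ⟨ξ2, hξ2⟩ := shadow_nonempty hTr d2
  obtain ⟨ω1, hω1⟩ := shadow_nonempty hTr c1
  obtain ⟨ω2, hω2⟩ := shadow_nonempty hTr c2
  have hξ1e : ξ1 ∉ T.shadow e := fun h => hd1e (T.shadow_unique hd1 hξ1 h)
  have hξ2e : ξ2 ∉ T.shadow e := fun h => hd2e (T.shadow_unique hd2 hξ2 h)
  have hω1e : ω1 ∈ T.shadow e := by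
    by_contra h
    rw [← T.mem_shadow_symm_iff] at h
    exact hc1e (T.shadow_unique hc1 hω1 h)
  have hω2e : ω2 ∈ T.shadow e := by
    by_contra h
    rw [← T.mem_shadow_symm_iff] at h
    exact hc2e (T.shadow_unique hc2 hω2 h)
  have hne12 : ξ1 ≠ ξ2 := by
    rintro rfl
    exact hd21 (T.shadow_unique (hd2.trans hd1.symm) hξ2 hξ1)
  have hneω : ω1 ≠ ω2 := by
    rintro rfl
    exact hc21 (T.shadow_unique (hc2.trans hc1.symm) hω2 hω1)
  have hsep : ∀ {η ω : Boundary N}, η ∉ T.shadow e → ω ∈ T.shadow e → η ≠ ω := by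
    rintro η ω h1 h2 rfl
    exact h1 h2
  have hp : e.fst ∈ T.line ξ1 ξ2 := by
    have := mem_line_of_dirs (hd1.trans hd2.symm) (Ne.symm hd21) hξ1 hξ2
    rwa [hd1] at this
  have hq : e.snd ∈ T.line ω1 ω2 := by
    have := mem_line_of_dirs (hc1.trans hc2.symm) (Ne.symm hc21) hω1 hω2
    rwa [hc1] at this
  have hD : Distinct4 ξ1 ξ2 ω1 ω2 := ⟨hne12, hsep hξ1e hω1e, hsep hξ1e hω2e, hsep hξ2e hω1e,
    hsep hξ2e hω2e, hneω⟩
  have hpos : 0 < T.cr x ξ1 ξ2 ω1 ω2 :=
    lt_of_lt_of_le (T.dlen_pos e) (le_cr hD x hξ1e hξ2e hω1e hω2e)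
  have hposS : 0 < S.cr y ξ1 ξ2 ω1 ω2 := by
    have h1 := hcr _ _ _ _ hD
    have h2 : 0 < α * T.cr x ξ1 ξ2 ω1 ω2 := mul_pos hα hpos
    rw [h1] at h2
    exact (mul_pos_iff_of_pos_left hβ).1 h2
  obtain ⟨e', h1, h2, h3, h4⟩ := exists_of_cr_pos hD y hposS
  have hnonpos : ∀ {a b c d : Boundary N}, Distinct4 a b c d → T.cr x a b c d ≤ 0 →
      ¬ (a ∉ S.shadow e' ∧ b ∉ S.shadow e' ∧ c ∈ S.shadow e' ∧ d ∈ S.shadow e') := by
    rintro a b c d hd hle ⟨g1, g2, g3, g4⟩
    have g5 := le_cr hd y g1 g2 g3 g4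
    have g6 := hcr _ _ _ _ hd
    have g7 := S.dlen_pos e'
    have g8 : 0 < β * S.cr y a b c d := mul_pos hβ (by linarith)
    have g9 : α * T.cr x a b c d ≤ 0 := mul_nonpos_of_nonneg_of_nonpos hα.le hle
    linarith
  refine ⟨e', ?_, ?_⟩
  · ext η
    constructor
    · intro hη
      by_contra hηe
      by_cases hη1 : η = ξ1
      · exact h1 (hη1 ▸ hη)
      by_cases hη2 : η = ξ2
      · exact h2 (hη2 ▸ hη)
      have hD' : Distinct4 ξ1 ξ2 η ω1 := ⟨hne12, Ne.symm hη1, hsep hξ1e hω1e, Ne.symm hη2,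
        hsep hξ2e hω1e, hsep hηe hω1e⟩
      exact hnonpos hD' (cr_nonpos hD' x hp (fst_mem_line hηe hω1e)) ⟨h1, h2, hη, h3⟩
    · intro hη
      by_contra hηe
      by_cases hη1 : η = ω1
      · exact hηe (hη1 ▸ h3)
      by_cases hη2 : η = ω2
      · exact hηe (hη2 ▸ h4)
      have hD' : Distinct4 ξ1 η ω1 ω2 := ⟨hsep hξ1e hη, hsep hξ1e hω1e, hsep hξ1e hω2e, hη1,
        hη2, hneω⟩
      exact hnonpos hD' (cr_nonpos hD' x (snd_mem_line hξ1e hη) hq) ⟨h1, hηe, h3, h4⟩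
  · have g1 := le_cr hD y h1 h2 h3 h4
    have g2 := hcr _ _ _ _ hD
    have g3 := cr_le_dist hD x hp hq
    rw [dist_fst_snd] at g3
    have g4 : β * S.dlen e' ≤ β * S.cr y ξ1 ξ2 ω1 ω2 := mul_le_mul_of_nonneg_left g1 hβ.le
    have g5 : α * T.cr x ξ1 ξ2 ω1 ω2 ≤ α * T.dlen e := mul_le_mul_of_nonneg_left g3 hα.le
    linarith

end OuterTree

end Pool.Agent.OuterSpace
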