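import Pool.Agent.Lib.MP_79396e_al.Easy

open SimpleGraph MeasureTheory Filter Topology
open scoped ENNReal NNReal

namespace Pool.Agent.OuterSpace

namespace OuterTree

open Boundary

variable {N : ℕ} {T S : OuterTree N}

/-- The pointwise estimate for the shadows along a ray. -/
theorem pointwise_shadow (hN : 2 ≤ N) {νT : T.V → Measure (Boundary N)}
    (hT : T.IsPattersonSullivan νT) {νS : S.V → Measure (Boundary N)}
    (hS : S.IsPattersonSullivan νS) {f : T.V → S.V} {c : ℝ≥0∞}
    (hc : ∀ d : T.graph.Dart, (T.shadow d).Nonempty → c ≤ νS (f d.snd) (T.shadow d))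
    {M : ℝ≥0∞} (hMt : M ≠ ∞) (hM0 : M ≠ 0) (hM : ∀ u, νT u Set.univ ≤ M) (K : ℝ)
    (n : ℕ) (u : T.V) (ζ : Boundary N)
    (hK : S.critExp * S.dist (f u) (f ((T.step ζ)^[n + 1] u)) ≤
      T.critExp * T.dist u ((T.step ζ)^[n + 1] u) + K) :
    ENNReal.ofReal (Real.exp (-K)) * (c / M) * νT u (T.shadow (T.dir ((T.step ζ)^[n] u) ζ)) ≤
      νS (f u) (T.shadow (T.dir ((T.step ζ)^[n] u) ζ)) := by
  set v := (T.step ζ)^[n + 1] u with hv
  set e := T.dir ((T.step ζ)^[n] u) ζ with he
  have hev : e.snd = v := by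
    rw [hv, Function.iterate_succ_apply']; rfl
  have h1 : νT u (T.shadow e) ≤ ENNReal.ofReal (Real.exp (-(T.critExp * T.dist u v))) * M := by
    refine le_trans (measure_mono ?_) ((measure_stepEv_le hT (n + 1) u v).trans ?_)
    · intro ζ' hζ'
      exact T.iterate_congr ζ ζ' n u hζ'
    · gcongr
      exact hM v
  have h2 : ENNReal.ofReal (Real.exp (-(S.critExp * S.dist (f u) (f v)))) * c ≤
      νS (f u) (T.shadow e) := by
    refine le_trans ?_ (le_measure hN hS (f u) (f v) (T.measurableSet_shadow e))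
    gcongr
    have := hc e ⟨ζ, T.mem_shadow_dir _ _⟩
    rwa [hev] at this
  calc ENNReal.ofReal (Real.exp (-K)) * (c / M) * νT u (T.shadow e)
      ≤ ENNReal.ofReal (Real.exp (-K)) * (c / M) *
          (ENNReal.ofReal (Real.exp (-(T.critExp * T.dist u v))) * M) := by gcongr
    _ = ENNReal.ofReal (Real.exp (-K)) * ENNReal.ofReal (Real.exp (-(T.critExp * T.dist u v))) *
          ((c / M) * M) := by ring
    _ = ENNReal.ofReal (Real.exp (-K)) * ENNReal.ofReal (Real.exp (-(T.critExp * T.dist u v))) *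
          c := by rw [ENNReal.div_mul_cancel hM0 hMt]
    _ ≤ ENNReal.ofReal (Real.exp (-(S.critExp * S.dist (f u) (f v)))) * c := by
        rw [← ENNReal.ofReal_mul (Real.exp_pos _).le, ← Real.exp_add]
        gcongr
        linarith
    _ ≤ _ := h2

/-- The hypotheses in the equality case. -/
structure EqData (T S : OuterTree N) (νT : T.V → Measure (Boundary N))
    (νS : S.V → Measure (Boundary N)) (f : T.V → S.V)
    (μ : Measure (Boundary N × Boundary N)) (c : ℝ≥0) : Prop where
  hN : 2 ≤ N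
  hT : T.IsPattersonSullivan νT
  hS : S.IsPattersonSullivan νS
  hf : ∀ (g : FreeGroup (Fin N)) (u : T.V), f (g • u) = g • f u
  hline : ∀ (u : T.V) (A : Set (Boundary N × Boundary N)), MeasurableSet A → A ⊆ T.lineSet u →
      μ A = c * ((νT u).prod (νT u)) A
  hinv : Invariant μ
  hnorm : T.pairing μ = 1
  heq : ENNReal.ofReal S.critExp * S.pairing μ ≤ ENNReal.ofReal T.critExp

variable {νT : T.V → Measure (Boundary N)} {νS : S.V → Measure (Boundary N)} {f : T.V → S.V}
  {μ : Measure (Boundary N × Boundary N)} {c : ℝ≥0}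

theorem EqData.fin (D : EqData T S νT νS f μ c) (u : T.V) : μ (T.lineSet u) ≠ ∞ := by
  have hfu : IsFiniteMeasure (νT u) := D.hT.finite u
  rw [D.hline u _ (measurableSet_lineSet u) subset_rfl]
  exact ENNReal.mul_ne_top ENNReal.coe_ne_top (measure_ne_top _ _)

/-- the scaled lengths of the `T`-segment and of its image -/
noncomputable def lenT (T : OuterTree N) (n : ℕ) (u : T.V) (p : Boundary N × Boundary N) : ℝ≥0∞ :=
  ENNReal.ofReal (T.critExp * T.dist u ((T.step p.2)^[n + 1] u))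

noncomputable def lenS (T S : OuterTree N) (f : T.V → S.V) (n : ℕ) (u : T.V)
    (p : Boundary N × Boundary N) : ℝ≥0∞ :=
  ENNReal.ofReal (S.critExp * S.dist (f u) (f ((T.step p.2)^[n + 1] u)))

theorem measurable_lenT (n : ℕ) (u : T.V) : Measurable (lenT T n u) :=
  (measurable_comp_iterate (n + 1) u
    (fun v => ENNReal.ofReal (T.critExp * T.dist u v))).comp measurable_snd

theorem measurable_lenS (n : ℕ) (u : T.V) : Measurable (lenS T S f n u) :=
  (measurable_comp_iterate (n + 1) u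
    (fun v => ENNReal.ofReal (S.critExp * S.dist (f u) (f v)))).comp measurable_snd

theorem tsum_lenT (hT : 0 ≤ T.critExp) (n : ℕ) :
    ∑' q : T.VQ, ∫⁻ p in T.lineSet q.out, lenT T n q.out p ∂μ =
      ENNReal.ofReal T.critExp * avg T T id μ (n + 1) := by
  unfold avg lenT
  rw [← ENNReal.tsum_mul_left]
  congr 1; funext q
  rw [← lintegral_const_mul' _ _ ENNReal.ofReal_ne_top]
  congr 1; funext p
  rw [ENNReal.ofReal_mul hT]
  rfl

theorem tsum_lenS (hS : 0 ≤ S.critExp) (n : ℕ) :
    ∑' q : T.VQ, ∫⁻ p in T.lineSet q.out, lenS T S f n q.out p ∂μ =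
      ENNReal.ofReal S.critExp * avg T S f μ (n + 1) := by
  unfold avg lenS
  rw [← ENNReal.tsum_mul_left]
  congr 1; funext q
  rw [← lintegral_const_mul' _ _ ENNReal.ofReal_ne_top]
  congr 1; funext p
  rw [ENNReal.ofReal_mul hS]

/-- the positive part of the defect has bounded integral -/
theorem EqData.pos_part (D : EqData T S νT νS f μ c) : ∃ C : ℝ≥0∞, C ≠ ∞ ∧ ∀ n : ℕ,
    ∑' q : T.VQ, ∫⁻ p in T.lineSet q.out, (lenT T n q.out p - lenS T S f n q.out p) ∂μ ≤ C := by
  obtain ⟨c0, hc0, hct, hc⟩ := exists_lower D.hN D.hS D.hf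
  obtain ⟨M, hMt, hM0, hM⟩ := exists_mass D.hT
  obtain ⟨MS, hMSt, hMS0, hMS⟩ := exists_mass D.hS
  have hfin := Fintype.ofFinite T.VQ
  have hTn := critExp_nonneg D.hN T
  have hSn := critExp_nonneg D.hN S
  refine ⟨∑' q : T.VQ, (M / c0) * (c * (M * MS)), ?_, fun n => ?_⟩
  · rw [tsum_fintype]
    apply ENNReal.sum_ne_top.2
    intro q _
    exact ENNReal.mul_ne_top (ENNReal.div_ne_top hMt hc0)
      (ENNReal.mul_ne_top ENNReal.coe_ne_top (ENNReal.mul_ne_top hMt hMSt))
  · apply ENNReal.tsum_le_tsum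
    intro q
    set u : T.V := q.out with hu
    have hres : μ.restrict (T.lineSet u) = c • ((νT u).prod (νT u)).restrict (T.lineSet u) := by
      ext A hA
      rw [Measure.restrict_apply hA, Measure.coe_nnreal_smul_apply, Measure.restrict_apply hA]
      exact D.hline u _ (hA.inter (measurableSet_lineSet u)) Set.inter_subset_right
    have hfu : IsFiniteMeasure (νT u) := D.hT.finite u
    have hfSu : IsFiniteMeasure (νS (f u)) := D.hS.finite (f u)
    let F : T.V → ℝ≥0∞ := fun v =>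
      νS (f u) (stepEv T (n + 1) u v) / νT u (stepEv T (n + 1) u v)
    have hFm : Measurable fun ζ : Boundary N => F ((T.step ζ)^[n + 1] u) :=
      measurable_comp_iterate (n + 1) u F
    have hbound : ∫⁻ p in T.lineSet u, F ((T.step p.2)^[n + 1] u) ∂μ ≤ c * (M * MS) := by
      rw [hres, lintegral_smul_measure, ENNReal.smul_def, smul_eq_mul]
      gcongr
      calc ∫⁻ p in T.lineSet u, F ((T.step p.2)^[n + 1] u) ∂((νT u).prod (νT u))
          ≤ ∫⁻ p, F ((T.step p.2)^[n + 1] u) ∂((νT u).prod (νT u)) :=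
            setLIntegral_le_lintegral _ _
        _ = ∫⁻ ζ, F ((T.step ζ)^[n + 1] u) ∂(((νT u).prod (νT u)).map Prod.snd) := by
            rw [lintegral_map hFm measurable_snd]
        _ = νT u Set.univ * ∫⁻ ζ, F ((T.step ζ)^[n + 1] u) ∂(νT u) := by
            rw [Measure.map_snd_prod, lintegral_smul_measure, smul_eq_mul]
        _ ≤ M * MS := by
            gcongr
            · exact hM u
            · exact (lintegral_ratio (νT u) (νS (f u)) (n + 1) u).trans (hMS (f u))
    calc ∫⁻ p in T.lineSet u, (lenT T n u p - lenS T S f n u p) ∂μ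
        ≤ ∫⁻ p in T.lineSet u, (M / c0) * F ((T.step p.2)^[n + 1] u) ∂μ := by
          apply lintegral_mono
          intro p
          show lenT T n u p - lenS T S f n u p ≤ _
          rw [tsub_le_iff_left]
          have := pointwise D.hN D.hT D.hS hc0 hct hc hMt hM0 hM n u p.2
          unfold lenT lenS
          rw [ENNReal.ofReal_mul hTn, ENNReal.ofReal_mul hSn]
          exact this
      _ = (M / c0) * ∫⁻ p in T.lineSet u, F ((T.step p.2)^[n + 1] u) ∂μ := by
          rw [lintegral_const_mul' _ _ (ENNReal.div_ne_top hMt hc0)]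
      _ ≤ _ := by gcongr

/-- the negative part of the defect has bounded integral -/
theorem EqData.neg_part (D : EqData T S νT νS f μ c) : ∃ C : ℝ≥0∞, C ≠ ∞ ∧ ∀ n : ℕ,
    ∑' q : T.VQ, ∫⁻ p in T.lineSet q.out, (lenS T S f n q.out p - lenT T n q.out p) ∂μ ≤ C := by
  obtain ⟨C2, hC2, h2⟩ := D.pos_part
  obtain ⟨C1, hC1, h1⟩ := avg_upper f D.hf μ D.hinv D.fin
  obtain ⟨C0, hC0, h0⟩ := avg_upper (S := T) id (fun _ _ => rfl) μ D.hinv D.fin
  have hTn := critExp_nonneg D.hN T
  have hSn := critExp_nonneg D.hN S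
  refine ⟨ENNReal.ofReal S.critExp * C1 + C2,
    ENNReal.add_ne_top.2 ⟨ENNReal.mul_ne_top ENNReal.ofReal_ne_top hC1, hC2⟩, fun n => ?_⟩
  set A := ∑' q : T.VQ, ∫⁻ p in T.lineSet q.out, lenT T n q.out p ∂μ with hA
  set B := ∑' q : T.VQ, ∫⁻ p in T.lineSet q.out, lenS T S f n q.out p ∂μ with hB
  have hAfin : A ≠ ∞ := by
    rw [hA, tsum_lenT hTn]
    apply ENNReal.mul_ne_top ENNReal.ofReal_ne_top
    apply ne_top_of_le_ne_top _ (h0 (n + 1))
    rw [D.hnorm]
    exact ENNReal.add_ne_top.2 ⟨ENNReal.mul_ne_top (by simp) (by simp), hC0⟩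
  have hBA : B ≤ A + ENNReal.ofReal S.critExp * C1 := by
    rw [hA, hB, tsum_lenT hTn, tsum_lenS hSn]
    calc ENNReal.ofReal S.critExp * avg T S f μ (n + 1)
        ≤ ENNReal.ofReal S.critExp * ((n + 1 : ℕ) * (2 * S.pairing μ) + C1) := by
          gcongr; exact h1 (n + 1)
      _ = (n + 1 : ℕ) * (2 * (ENNReal.ofReal S.critExp * S.pairing μ)) +
          ENNReal.ofReal S.critExp * C1 := by ring
      _ ≤ (n + 1 : ℕ) * (2 * ENNReal.ofReal T.critExp) + ENNReal.ofReal S.critExp * C1 := by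
          gcongr
          exact D.heq
      _ = ENNReal.ofReal T.critExp * ((n + 1 : ℕ) * (2 * T.pairing μ)) +
          ENNReal.ofReal S.critExp * C1 := by rw [D.hnorm]; ring
      _ ≤ _ := by
          gcongr
          exact avg_lower μ D.hinv (n + 1)
  have hsplit : A + ∑' q : T.VQ, ∫⁻ p in T.lineSet q.out,
      (lenS T S f n q.out p - lenT T n q.out p) ∂μ =
      B + ∑' q : T.VQ, ∫⁻ p in T.lineSet q.out,
      (lenT T n q.out p - lenS T S f n q.out p) ∂μ := by
    rw [hA, hB, ← ENNReal.tsum_add, ← ENNReal.tsum_add]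
    congr 1; funext q
    rw [← lintegral_add_left (measurable_lenT n q.out),
      ← lintegral_add_left (measurable_lenS n q.out)]
    congr 1; funext p
    rw [add_tsub_eq_max, add_tsub_eq_max, max_comm]
  have h3 : A + ∑' q : T.VQ, ∫⁻ p in T.lineSet q.out,
      (lenS T S f n q.out p - lenT T n q.out p) ∂μ ≤ A + (ENNReal.ofReal S.critExp * C1 + C2) := by
    rw [hsplit, ← add_assoc]
    exact add_le_add hBA (h2 n)
  exact (ENNReal.add_le_add_iff_left hAfin).1 h3

theorem EqData.exists_pos_vertex (D : EqData T S νT νS f μ c) :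
    ∃ q : T.VQ, μ (T.lineSet q.out) ≠ 0 := by
  by_contra hcon
  push Not at hcon
  have h1 : ∀ u : T.V, μ (T.lineSet u) = 0 := by
    intro u
    obtain ⟨g, q, rfl⟩ := T.exists_repV u
    rw [← hcon q, ← D.hinv g, Measure.map_apply (measurable_diag g) (measurableSet_lineSet _),
      D.hinv g]
    congr 1
    ext p
    exact T.mem_line_smul g p.1 p.2 _
  have h2 : T.pairing μ = 0 := by
    unfold pairing
    rw [ENNReal.div_eq_zero_iff]
    left
    rw [ENNReal.tsum_eq_zero]
    intro o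
    have h3 : T.cyl o.out ⊆ T.lineSet o.out.fst := by
      rintro ⟨ξ, ζ⟩ ⟨h4, h5⟩
      exact fst_mem_line ((T.mem_shadow_symm_iff _ _).1 h4) h5
    rw [measure_mono_null h3 (h1 _), mul_zero]
  rw [D.hnorm] at h2
  exact one_ne_zero h2

/-- In the equality case, the `S`-measures of the `T`-shadows are not much smaller than their
`T`-measures, on a set of measure bounded below. -/
theorem EqData.good (D : EqData T S νT νS f μ c) : ∃ (u : T.V) (κ η : ℝ≥0∞), κ ≠ 0 ∧ κ ≠ ∞ ∧
    η ≠ 0 ∧ ∀ n : ℕ, η ≤ νT u {ζ | κ * νT u (T.shadow (T.dir ((T.step ζ)^[n] u) ζ)) ≤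
      νS (f u) (T.shadow (T.dir ((T.step ζ)^[n] u) ζ))} := by
  obtain ⟨c0, hc0, hct, hc⟩ := exists_lower D.hN D.hS D.hf
  obtain ⟨M, hMt, hM0, hM⟩ := exists_mass D.hT
  obtain ⟨q, hq⟩ := D.exists_pos_vertex
  obtain ⟨C, hC, hneg⟩ := D.neg_part
  set u : T.V := q.out with hu
  set m0 := μ (T.lineSet u) with hm0
  have hm0t : m0 ≠ ∞ := D.fin u
  -- choice of the threshold
  obtain ⟨K, hK0, hK⟩ : ∃ K : ℝ, 0 < K ∧ C / ENNReal.ofReal K ≤ m0 / 2 := by
    lift C to ℝ≥0 using hC
    have hm1 : 0 < m0.toReal := ENNReal.toReal_pos hq hm0t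
    refine ⟨(2 * (C + 1)) / m0.toReal, by positivity, ?_⟩
    apply ENNReal.div_le_of_le_mul
    have h1 : m0 / 2 = ENNReal.ofReal (m0.toReal / 2) := by
      rw [ENNReal.ofReal_div_of_pos two_pos, ENNReal.ofReal_toReal hm0t]
      simp
    rw [h1, ← ENNReal.ofReal_mul (by positivity)]
    have h2 : m0.toReal / 2 * (2 * ((C : ℝ) + 1) / m0.toReal) = C + 1 := by
      field_simp
    rw [h2]
    have h3 : (C : ℝ≥0∞) = ENNReal.ofReal (C : ℝ) := by simp
    rw [h3]
    apply ENNReal.ofReal_le_ofReal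
    linarith
  refine ⟨u, ENNReal.ofReal (Real.exp (-K)) * (c0 / M), m0 / 2 / (c * M), ?_, ?_, ?_, fun n => ?_⟩
  · apply mul_ne_zero
    · rw [Ne, ENNReal.ofReal_eq_zero, not_le]; exact Real.exp_pos _
    · exact ENNReal.div_ne_zero.2 ⟨hc0, hMt⟩
  · exact ENNReal.mul_ne_top ENNReal.ofReal_ne_top (ENNReal.div_ne_top hct hM0)
  · apply ENNReal.div_ne_zero.2
    exact ⟨ENNReal.div_ne_zero.2 ⟨hq, by simp⟩, ENNReal.mul_ne_top ENNReal.coe_ne_top hMt⟩
  · let P : T.V → Prop := fun v => S.critExp * S.dist (f u) (f v) ≤ T.critExp * T.dist u v + K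
    let E : Set (Boundary N) := {ζ | P ((T.step ζ)^[n + 1] u)}
    have hE : MeasurableSet E := by
      let _ : MeasurableSpace T.V := ⊤
      exact measurable_comp_iterate (n + 1) u id (show MeasurableSet {v | P v} from trivial)
    have hsub : E ⊆ {ζ | ENNReal.ofReal (Real.exp (-K)) * (c0 / M) *
        νT u (T.shadow (T.dir ((T.step ζ)^[n] u) ζ)) ≤
        νS (f u) (T.shadow (T.dir ((T.step ζ)^[n] u) ζ))} := by
      intro ζ hζ
      exact pointwise_shadow D.hN D.hT D.hS hc hMt hM0 hM K n u ζ hζ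
    refine le_trans ?_ (measure_mono hsub)
    have hbad : μ (T.lineSet u ∩ Prod.snd ⁻¹' Eᶜ) ≤ m0 / 2 := by
      refine le_trans ?_ hK
      have h1 := meas_ge_le_lintegral_div (μ := μ.restrict (T.lineSet u))
        (f := fun p => lenS T S f n u p - lenT T n u p)
        ((measurable_lenS n u).sub (measurable_lenT n u)).aemeasurable
        (ε := ENNReal.ofReal K) (by simpa using hK0) ENNReal.ofReal_ne_top
      have h2 : ∫⁻ p in T.lineSet u, (lenS T S f n u p - lenT T n u p) ∂μ ≤ C :=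
        (ENNReal.le_tsum q).trans (hneg n)
      have h3 : μ (T.lineSet u ∩ Prod.snd ⁻¹' Eᶜ) ≤
          (μ.restrict (T.lineSet u)) {p | ENNReal.ofReal K ≤ lenS T S f n u p - lenT T n u p} := by
        rw [Measure.restrict_apply' (measurableSet_lineSet u)]
        apply measure_mono
        rintro p ⟨hp1, hp2⟩
        refine ⟨?_, hp1⟩
        have hp3 : ¬ (S.critExp * S.dist (f u) (f ((T.step p.2)^[n + 1] u)) ≤
          T.critExp * T.dist u ((T.step p.2)^[n + 1] u) + K) := hp2
        push Not at hp3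
        show ENNReal.ofReal K ≤ _
        apply ENNReal.le_sub_of_add_le_left
        · exact ENNReal.ofReal_ne_top
        · unfold lenT lenS
          rw [← ENNReal.ofReal_add (mul_nonneg (critExp_nonneg D.hN T) (T.dist_nonneg _ _)) hK0.le]
          exact ENNReal.ofReal_le_ofReal hp3.le
      exact h3.trans (h1.trans (ENNReal.div_le_div_right h2 _))
    have hgood : μ (T.lineSet u ∩ Prod.snd ⁻¹' E) ≤ c * M * νT u E := by
      have hfu : IsFiniteMeasure (νT u) := D.hT.finite u
      rw [D.hline u _ ((measurableSet_lineSet u).inter (measurable_snd hE)) Set.inter_subset_left,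
        mul_assoc]
      gcongr
      calc ((νT u).prod (νT u)) (T.lineSet u ∩ Prod.snd ⁻¹' E)
          ≤ ((νT u).prod (νT u)) (Set.univ ×ˢ E) := by
            apply measure_mono
            rintro p ⟨_, hp⟩
            exact ⟨trivial, hp⟩
        _ = νT u Set.univ * νT u E := Measure.prod_prod _ _
        _ ≤ _ := by gcongr; exact hM u
    have htot : m0 ≤ c * M * νT u E + m0 / 2 := by
      calc m0 ≤ μ ((T.lineSet u ∩ Prod.snd ⁻¹' E) ∪ (T.lineSet u ∩ Prod.snd ⁻¹' Eᶜ)) := by
            apply measure_mono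
            intro p hp
            by_cases h : p.2 ∈ E
            · exact Or.inl ⟨hp, h⟩
            · exact Or.inr ⟨hp, h⟩
        _ ≤ _ := (measure_union_le _ _).trans (add_le_add hgood hbad)
    apply ENNReal.div_le_of_le_mul
    have h4 : m0 / 2 + m0 / 2 ≤ c * M * νT u E + m0 / 2 := by
      rw [ENNReal.add_halves]; exact htot
    have h5 : m0 / 2 ≠ ∞ := ENNReal.div_ne_top hm0t (by simp)
    have h6 := (ENNReal.add_le_add_iff_right h5).1 h4
    rwa [mul_comm (νT u E)]

end OuterTree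

end Pool.Agent.OuterSpace
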