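import Pool.Agent.Lib.MP_79396e_al.Iso

open SimpleGraph MeasureTheory Filter Topology
open scoped ENNReal NNReal

namespace Pool.Agent.OuterSpace

namespace OuterTree

open Boundary

variable {N : ℕ} {T S : OuterTree N}

/-- `T` and `S` are the same point of outer space: there is an `F_N`-equivariant isomorphism of
the trees that preserves the lengths of the edges. -/
def Equivalent (T S : OuterTree N) : Prop :=
  ∃ φ : T.V ≃ S.V, (∀ (g : FreeGroup (Fin N)) (v : T.V), φ (g • v) = g • φ v) ∧
    (∀ u v : T.V, T.graph.Adj u v ↔ S.graph.Adj (φ u) (φ v)) ∧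
    ∀ u v : T.V, T.graph.Adj u v → S.len s(φ u, φ v) = T.len s(u, v)

theorem psCurrent_invariant {μ : Measure (Boundary N × Boundary N)} (hμ : T.IsPSCurrent μ) :
    Invariant μ := by
  obtain ⟨⟨νT, x, c, hT, rfl⟩, _⟩ := hμ
  intro g
  have h1 := ps_invariant hT x g
  rw [Measure.map_smul]
  congr 1

theorem cyl_smul_measure {μ : Measure (Boundary N × Boundary N)} (hμ : Invariant μ)
    (g : FreeGroup (Fin N)) (d : T.graph.Dart) : μ (T.cyl (g • d)) = μ (T.cyl d) := by
  rw [← hμ g, Measure.map_apply (measurable_diag g) (measurableSet_cyl _), hμ g]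
  congr 1
  ext p
  show (g • p.1 ∈ T.shadow (g • d).symm ∧ g • p.2 ∈ T.shadow (g • d)) ↔
    (p.1 ∈ T.shadow d.symm ∧ p.2 ∈ T.shadow d)
  rw [smul_symm, T.smul_mem_shadow, T.smul_mem_shadow]

theorem halfTree_dartEquiv_aux (φ : T.V ≃ S.V)
    (hφ : ∀ u v : T.V, T.graph.Adj u v ↔ S.graph.Adj (φ u) (φ v)) (d : T.graph.Dart) {z : T.V}
    (h : z ∈ T.halfTree d) : φ z ∈ S.halfTree (dartEquiv φ hφ d) := by
  let f : (T.graph.deleteEdges {d.edge}) →g (S.graph.deleteEdges {(dartEquiv φ hφ d).edge}) :=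
    { toFun := fun v => φ v
      map_rel' := by
        intro a b hab
        rw [deleteEdges_adj] at hab ⊢
        refine ⟨(hφ a b).1 hab.1, ?_⟩
        intro hmem
        apply hab.2
        have h1 : s(φ a, φ b) = s(φ d.fst, φ d.snd) := hmem
        have h2 : s(a, b) = s(d.fst, d.snd) := by
          rw [Sym2.eq_iff] at h1 ⊢
          rcases h1 with ⟨h1, h2⟩ | ⟨h1, h2⟩
          · exact Or.inl ⟨φ.injective h1, φ.injective h2⟩
          · exact Or.inr ⟨φ.injective h1, φ.injective h2⟩
        exact h2 }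
  exact Reachable.map f h

theorem halfTree_dartEquiv (φ : T.V ≃ S.V)
    (hφ : ∀ u v : T.V, T.graph.Adj u v ↔ S.graph.Adj (φ u) (φ v)) (d : T.graph.Dart) (z : T.V) :
    φ z ∈ S.halfTree (dartEquiv φ hφ d) ↔ z ∈ T.halfTree d := by
  constructor
  · intro h
    by_contra h2
    rw [← T.mem_symm_iff] at h2
    have h3 := halfTree_dartEquiv_aux φ hφ _ h2
    have h4 : dartEquiv φ hφ d.symm = (dartEquiv φ hφ d).symm := rfl
    rw [h4, S.mem_symm_iff] at h3
    exact h3 h
  · exact halfTree_dartEquiv_aux φ hφ d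

theorem shadow_dartEquiv (φ : T.V ≃ S.V) (hg : ∀ (g : FreeGroup (Fin N)) (v : T.V),
    φ (g • v) = g • φ v)
    (hφ : ∀ u v : T.V, T.graph.Adj u v ↔ S.graph.Adj (φ u) (φ v)) (d : T.graph.Dart) :
    S.shadow (dartEquiv φ hφ d) = T.shadow d := by
  ext ξ
  constructor
  · intro h x
    filter_upwards [h (φ x)] with n hn
    rwa [← hg, halfTree_dartEquiv] at hn
  · intro h y
    obtain ⟨x, rfl⟩ := φ.surjective y
    filter_upwards [h x] with n hn
    rwa [← hg, halfTree_dartEquiv]

theorem pairing_eq_of_equivalent (h : Equivalent T S) {μ : Measure (Boundary N × Boundary N)}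
    (hμ : Invariant μ) : T.pairing μ = S.pairing μ := by
  obtain ⟨φ, h1, h2, h3⟩ := h
  unfold pairing
  congr 1
  apply tsum_orbits_congr (dartEquiv φ h2)
    (F := fun d => ENNReal.ofReal (T.len d.edge) * μ (T.cyl d))
    (G := fun d => ENNReal.ofReal (S.len d.edge) * μ (S.cyl d))
  · intro g d
    apply Dart.ext
    show (φ (g • d.fst), φ (g • d.snd)) = (g • φ d.fst, g • φ d.snd)
    rw [h1, h1]
  · intro g d
    have := S.dlen_smul g d
    unfold dlen at this
    simp only [this, cyl_smul_measure hμ]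
  · intro d
    have hlen : S.len (dartEquiv φ h2 d).edge = T.len d.edge := h3 _ _ d.adj
    have hcyl : S.cyl (dartEquiv φ h2 d) = T.cyl d := by
      unfold cyl
      have h4 : (dartEquiv φ h2 d).symm = dartEquiv φ h2 d.symm := rfl
      rw [h4, shadow_dartEquiv φ h1, shadow_dartEquiv φ h1]
    simp only [hlen, hcyl]

theorem intersection_of_equivalent (h : Equivalent T S)
    {μT μS : Measure (Boundary N × Boundary N)} (hT : T.IsPSCurrent μT) (hS : S.IsPSCurrent μS) :
    (S.pairing μT).toReal * (T.pairing μS).toReal = 1 := by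
  rw [← pairing_eq_of_equivalent h (psCurrent_invariant hT),
    pairing_eq_of_equivalent h (psCurrent_invariant hS), hT.2, hS.2]
  simp

end OuterTree

end Pool.Agent.OuterSpace
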