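import Pool.Agent.Lib.MP_79396e_al.Types

open SimpleGraph MeasureTheory Filter Topology
open scoped ENNReal NNReal

namespace Pool.Agent.OuterSpace

namespace OuterTree

open Boundary

variable {N : ℕ} {T S : OuterTree N} {ν1 ν2 : Measure (Boundary N)}

/-- Equality in the Cauchy-Schwarz inequality for the affinities. -/
theorem aff_eq_children [IsFiniteMeasure ν1] [IsFiniteMeasure ν2] (d : T.graph.Dart)
    (h : ∀ m, T.aff ν1 ν2 m d = T.aff ν1 ν2 0 d) (c : T.graph.Dart) (hc : c ∈ T.children d) :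
    (∀ m, T.aff ν1 ν2 m c = T.aff ν1 ν2 0 c) ∧
      (ν2 (T.shadow c)).toReal * (ν1 (T.shadow d)).toReal =
        (ν1 (T.shadow c)).toReal * (ν2 (T.shadow d)).toReal := by
  constructor
  · intro m
    have h1 : ∑ c ∈ T.children d, T.aff ν1 ν2 m c = ∑ c ∈ T.children d, T.aff ν1 ν2 0 c := by
      rw [← aff_succ, ← aff_succ, h (m + 1), h (0 + 1)]
    exact (Finset.sum_eq_sum_iff_of_le (fun c _ => aff_antitone c (Nat.zero_le m))).1 h1 c hc
  · set M := (ν1 (T.shadow d)).toReal with hM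
    set W := (ν2 (T.shadow d)).toReal with hW
    have hM0 : 0 ≤ M := ENNReal.toReal_nonneg
    have hW0 : 0 ≤ W := ENNReal.toReal_nonneg
    have h1 : ∑ c ∈ T.children d, √((ν1 (T.shadow c)).toReal * (ν2 (T.shadow c)).toReal) =
        √(M * W) := by
      have := h 1
      rw [aff_succ, aff_zero] at this
      exact this
    have h2 : ∑ c ∈ T.children d, (√(M * (ν2 (T.shadow c)).toReal) -
        √(W * (ν1 (T.shadow c)).toReal)) ^ 2 = 0 := by
      have h3 : ∀ c ∈ T.children d, (√(M * (ν2 (T.shadow c)).toReal) -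
          √(W * (ν1 (T.shadow c)).toReal)) ^ 2 = M * (ν2 (T.shadow c)).toReal +
          W * (ν1 (T.shadow c)).toReal -
          2 * (√(M * W) * √((ν1 (T.shadow c)).toReal * (ν2 (T.shadow c)).toReal)) := by
        intro c _
        have a0 : 0 ≤ (ν1 (T.shadow c)).toReal := ENNReal.toReal_nonneg
        have b0 : 0 ≤ (ν2 (T.shadow c)).toReal := ENNReal.toReal_nonneg
        rw [sub_sq, Real.sq_sqrt (mul_nonneg hM0 b0), Real.sq_sqrt (mul_nonneg hW0 a0), mul_assoc,
          ← Real.sqrt_mul (mul_nonneg hM0 b0), ← Real.sqrt_mul (mul_nonneg hM0 hW0)]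
        have : M * (ν2 (T.shadow c)).toReal * (W * (ν1 (T.shadow c)).toReal) =
          M * W * ((ν1 (T.shadow c)).toReal * (ν2 (T.shadow c)).toReal) := by ring
        rw [this]
        ring
      rw [Finset.sum_congr rfl h3, Finset.sum_sub_distrib, Finset.sum_add_distrib,
        ← Finset.mul_sum, ← Finset.mul_sum, ← Finset.mul_sum, ← Finset.mul_sum, h1,
        ← toReal_shadow_children, ← toReal_shadow_children, ← hM, ← hW,
        Real.mul_self_sqrt (mul_nonneg hM0 hW0)]
      ring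
    have h4 := (Finset.sum_eq_zero_iff_of_nonneg (fun c _ => sq_nonneg _)).1 h2 c hc
    have h5 : √(M * (ν2 (T.shadow c)).toReal) = √(W * (ν1 (T.shadow c)).toReal) := by
      have := pow_eq_zero_iff (two_ne_zero) |>.1 h4
      linarith
    have h6 := (Real.sqrt_inj (mul_nonneg hM0 ENNReal.toReal_nonneg)
      (mul_nonneg hW0 ENNReal.toReal_nonneg)).1 h5
    linarith

/-- Exact proportionality along the rays beyond `d`. -/
theorem exact_ray [IsFiniteMeasure ν1] [IsFiniteMeasure ν2] (d : T.graph.Dart)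
    (h : ∀ m, T.aff ν1 ν2 m d = T.aff ν1 ν2 0 d) (h1 : (ν1 (T.shadow d)).toReal ≠ 0)
    {ζ : Boundary N} (hζ : ζ ∈ T.shadow d) (k : ℕ) :
    (∀ m, T.aff ν1 ν2 m (T.dir ((T.step ζ)^[k] d.fst) ζ) =
      T.aff ν1 ν2 0 (T.dir ((T.step ζ)^[k] d.fst) ζ)) ∧
      (ν2 (T.shadow (T.dir ((T.step ζ)^[k] d.fst) ζ))).toReal * (ν1 (T.shadow d)).toReal =
        (ν1 (T.shadow (T.dir ((T.step ζ)^[k] d.fst) ζ))).toReal * (ν2 (T.shadow d)).toReal := by
  induction k with
  | zero =>
    rw [Function.iterate_zero, id, T.dir_eq (d := d) rfl hζ]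
    exact ⟨h, by ring⟩
  | succ k ih =>
    set e := T.dir ((T.step ζ)^[k] d.fst) ζ with he
    have hmem : T.dir ((T.step ζ)^[k + 1] d.fst) ζ ∈ T.children e := by
      rw [Function.iterate_succ_apply']
      exact dir_mem_children (T.mem_shadow_dir _ _)
    obtain ⟨g1, g2⟩ := aff_eq_children e ih.1 _ hmem
    refine ⟨g1, ?_⟩
    set e' := T.dir ((T.step ζ)^[k + 1] d.fst) ζ with he'
    obtain ⟨_, g3⟩ := ih
    by_cases h5 : (ν1 (T.shadow e)).toReal = 0
    · have h6 : (ν2 (T.shadow e)).toReal = 0 := by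
        rw [h5, zero_mul] at g3
        exact (mul_eq_zero.1 g3).resolve_right h1
      have h7 : T.shadow e' ⊆ T.shadow e := shadow_child_subset hmem
      have h8 : (ν1 (T.shadow e')).toReal = 0 :=
        le_antisymm ((ENNReal.toReal_mono (measure_ne_top _ _) (measure_mono h7)).trans h5.le)
          ENNReal.toReal_nonneg
      have h9 : (ν2 (T.shadow e')).toReal = 0 :=
        le_antisymm ((ENNReal.toReal_mono (measure_ne_top _ _) (measure_mono h7)).trans h6.le)
          ENNReal.toReal_nonneg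
      rw [h8, h9]; ring
    · apply mul_left_cancel₀ h5
      calc (ν1 (T.shadow e)).toReal * ((ν2 (T.shadow e')).toReal * (ν1 (T.shadow d)).toReal)
          = ((ν2 (T.shadow e')).toReal * (ν1 (T.shadow e)).toReal) *
            (ν1 (T.shadow d)).toReal := by ring
        _ = ((ν1 (T.shadow e')).toReal * (ν2 (T.shadow e)).toReal) *
            (ν1 (T.shadow d)).toReal := by rw [g2]
        _ = (ν1 (T.shadow e')).toReal * ((ν2 (T.shadow e)).toReal *
            (ν1 (T.shadow d)).toReal) := by ring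
        _ = (ν1 (T.shadow e')).toReal * ((ν1 (T.shadow e)).toReal *
            (ν2 (T.shadow d)).toReal) := by rw [g3]
        _ = _ := by ring

/-- Every dart beyond `d` lies on a ray that starts with `d`. -/
theorem exists_ray (hr : T.IsReduced) {d e : T.graph.Dart} (h : T.halfTree e ⊆ T.halfTree d)
    {ζ : Boundary N} (hζ : ζ ∈ T.shadow e) : ∃ k : ℕ, T.dir ((T.step ζ)^[k] d.fst) ζ = e := by
  obtain ⟨η, hη⟩ := shadow_nonempty hr d.symm
  have hηd : η ∉ T.shadow d := (T.mem_shadow_symm_iff d η).1 hη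
  have hηe : η ∉ T.shadow e := fun h' => hηd (T.shadow_mono h h')
  have hζd := T.shadow_mono h hζ
  let u0 : T.line η ζ := ⟨d.fst, fst_mem_line hηd hζd⟩
  obtain ⟨k, hk⟩ := exists_par e.fst (fst_mem_line hηe hζ) u0
  have hdp : dpar u0 0 = d := by
    unfold dpar
    rw [par_zero]
    exact T.dir_eq rfl hζd
  have hk0 : 0 ≤ k := by
    by_contra hneg
    have h1 : T.par u0 k ∉ T.halfTree (dpar u0 0) := par_not_mem_halfTree u0 (by omega)
    rw [hk, hdp] at h1
    have h2 := T.dart_eq_of_cross d e h1 (h (T.snd_mem_halfTree e))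
    have h3 : T.par u0 k = T.par u0 0 := by
      rw [hk, par_zero, h2]
    have h4 := par_injective u0 h3
    omega
  obtain ⟨m, rfl⟩ := Int.eq_ofNat_of_zero_le hk0
  refine ⟨m, T.dir_eq ?_ hζ⟩
  have h5 := par_add_nat u0 0 m
  rw [zero_add, par_zero] at h5
  rw [← hk]
  exact h5

theorem exact_dart (hr : T.IsReduced) [IsFiniteMeasure ν1] [IsFiniteMeasure ν2]
    (d : T.graph.Dart)
    (h : ∀ m, T.aff ν1 ν2 m d = T.aff ν1 ν2 0 d) (h1 : (ν1 (T.shadow d)).toReal ≠ 0)
    {e : T.graph.Dart} (he : T.halfTree e ⊆ T.halfTree d) :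
    (ν2 (T.shadow e)).toReal * (ν1 (T.shadow d)).toReal =
        (ν1 (T.shadow e)).toReal * (ν2 (T.shadow d)).toReal := by
  obtain ⟨ζ, hζ⟩ := shadow_nonempty hr e
  obtain ⟨k, hk⟩ := exists_ray hr he hζ
  have h3 := (exact_ray d h h1 (T.shadow_mono he hζ) k).2
  rw [hk] at h3
  exact h3

theorem busemann_smul (g : FreeGroup (Fin N)) (ξ : Boundary N) (x y : T.V) :
    T.busemann (g • ξ) (g • x) (g • y) = T.busemann ξ x y := by
  classical
  rw [busemann_eq, busemann_eq]
  unfold bus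
  refine Finset.sum_bij' (fun c _ => g⁻¹ • c) (fun c _ => g • c) ?_ ?_ ?_ ?_ ?_
  · intro c hc
    rw [mem_sepF] at hc ⊢
    rwa [mem_halfTree_smul, mem_halfTree_smul, inv_inv]
  · intro c hc
    rw [mem_sepF] at hc ⊢
    rwa [smul_mem_halfTree, smul_mem_halfTree]
  · intro c _; exact smul_inv_smul g c
  · intro c _; exact inv_smul_smul g c
  · intro c _
    rw [dlen_smul]
    have : (g • ξ ∈ T.shadow c) = (ξ ∈ T.shadow (g⁻¹ • c)) := by
      apply propext
      rw [← T.smul_mem_shadow g ξ (e := g⁻¹ • c), smul_inv_smul]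
    simp only [this]

variable {f : T.V → S.V}

/-- The shadows of `S` do not distinguish the boundary points far out beyond a ray of `T`. -/
theorem shadow_eventually (hf : ∀ (g : FreeGroup (Fin N)) (u : T.V), f (g • u) = g • f u)
    {η ζ : Boundary N} (u0 : T.line η ζ) (e : S.graph.Dart) :
    ∃ i0 : ℤ, ∀ i, i0 ≤ i → ∀ ξ ∈ T.shadow (dpar u0 i), (ξ ∈ S.shadow e ↔ ζ ∈ S.shadow e) := by
  obtain ⟨x⟩ := T.isTree.connected.nonempty
  obtain ⟨i0, hi0⟩ := side_eventually (fun v => f v ∈ S.halfTree e) (coboundary_finite hf e) u0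
  have key : ∀ i, i0 ≤ i → ∀ ξ ∈ T.shadow (dpar u0 i),
      (ξ ∈ S.shadow e ↔ f (dpar u0 i).snd ∈ S.halfTree e) := by
    intro i hi ξ hξ
    obtain ⟨n, h1, h2⟩ := ((hξ x).and (eventually_side_iff hf e x ξ)).exists
    rw [← h2]
    exact hi0 i hi _ h1
  refine ⟨i0, fun i hi ξ hξ => ?_⟩
  rw [key i hi ξ hξ, key i hi ζ (mem_shadow_dpar u0 i)]

theorem busemann_eventually (hf : ∀ (g : FreeGroup (Fin N)) (u : T.V), f (g • u) = g • f u)
    {η ζ : Boundary N} (u0 : T.line η ζ) (x y : S.V) :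
    ∃ i0 : ℤ, ∀ i, i0 ≤ i → ∀ ξ ∈ T.shadow (dpar u0 i), S.busemann ξ x y = S.busemann ζ x y := by
  classical
  choose b hb using fun e : S.graph.Dart => shadow_eventually hf u0 e
  obtain ⟨i0, hi0⟩ := ((S.sepF x y).finite_toSet.image b).bddAbove
  refine ⟨i0, fun i hi ξ hξ => ?_⟩
  rw [busemann_eq, busemann_eq]
  unfold bus
  apply Finset.sum_congr rfl
  intro e he
  have h1 : b e ≤ i := (hi0 ⟨e, he, rfl⟩).trans hi
  simp only [hb e i h1 ξ hξ]

variable {νT : T.V → Measure (Boundary N)} {νS : S.V → Measure (Boundary N)}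
  {μ : Measure (Boundary N × Boundary N)} {c : ℝ≥0}

/-- The scaled Busemann cocycles agree for the return maps of the shadow of `d`. -/
theorem EqData.cocycle (D : EqData T S νT νS f μ c) (hr : T.IsReduced) {d : T.graph.Dart}
    {u : T.V}
    (h : ∀ m, T.aff (νT u) (νS (f u)) m d = T.aff (νT u) (νS (f u)) 0 d)
    (g : FreeGroup (Fin N)) (ζ : Boundary N) (hζ : ζ ∈ T.shadow d) (hgζ : g • ζ ∈ T.shadow d) :
    T.critExp * T.busemann ζ (g⁻¹ • u) u = S.critExp * S.busemann ζ (g⁻¹ • f u) (f u) := by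
  have hfT : ∀ u, IsFiniteMeasure (νT u) := D.hT.finite
  have hfS : ∀ u, IsFiniteMeasure (νS u) := D.hS.finite
  have hpos : ∀ {e : T.graph.Dart} (x : T.V), (T.shadow e).Nonempty →
      0 < (νT x (T.shadow e)).toReal := by
    intro e x he
    exact ENNReal.toReal_pos (pos_of_isOpen D.hN D.hT x _ (T.isClopen_shadow e).isOpen he)
      (measure_ne_top _ _)
  have hposS : ∀ {e : T.graph.Dart} (x : S.V), (T.shadow e).Nonempty →
      0 < (νS x (T.shadow e)).toReal := by
    intro e x he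
    exact ENNReal.toReal_pos (pos_of_isOpen D.hN D.hS x _ (T.isClopen_shadow e).isOpen he)
      (measure_ne_top _ _)
  obtain ⟨η, hη⟩ := shadow_nonempty hr d.symm
  have hηd : η ∉ T.shadow d := (T.mem_shadow_symm_iff d η).1 hη
  let u0 : T.line η ζ := ⟨d.fst, fst_mem_line hηd hζ⟩
  have hdp : dpar u0 0 = d := by
    unfold dpar
    rw [par_zero]
    exact T.dir_eq rfl hζ
  obtain ⟨i1, hi1⟩ := busemann_eventually (S := T) (f := id) (fun _ _ => rfl) u0 (g⁻¹ • u) u
  obtain ⟨i2, hi2⟩ := busemann_eventually D.hf u0 (g⁻¹ • f u) (f u)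
  obtain ⟨i3, hi3⟩ := exists_not_mem_halfTree u0 (g⁻¹ • d.fst)
  set i := max (max i1 i2) (max i3 0) with hi
  have g1 := hi1 i (by omega)
  have g2 := hi2 i (by omega)
  have g3 := hi3 i (by omega)
  set e := dpar u0 i with he
  have hed : T.halfTree e ⊆ T.halfTree d := by
    have h1 : d.fst ∉ T.halfTree e := by
      have h2 : d.fst = T.par u0 0 := by rw [par_zero]
      rw [h2, he]
      exact par_not_mem_halfTree u0 (by omega)
    intro z hz
    rw [T.nested (e := e) (d := d) (Or.inl h1) hz]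
    rw [he, dpar_snd]
    have h3 : T.par u0 (i + 1) ∈ T.halfTree (dpar u0 0) := par_mem_halfTree u0 (by omega)
    rwa [hdp] at h3
  have hζe : ζ ∈ T.shadow e := mem_shadow_dpar u0 i
  have hged : T.halfTree (g • e) ⊆ T.halfTree d := by
    have h1 : d.fst ∉ T.halfTree (g • e) := by
      rw [T.mem_halfTree_smul]; exact g3
    have h2 : g • ζ ∈ T.shadow (g • e) := (T.smul_mem_shadow g e ζ).2 hζe
    intro z hz
    rw [T.nested (e := g • e) (d := d) (Or.inl h1) hz]
    by_contra h3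
    apply shadow_disjoint_of_halfTree (d := g • e) (c := d) _ h2 hgζ
    intro z' hz' h4
    exact h3 ((T.nested (e := g • e) (d := d) (Or.inl h1) hz').1 h4)
  have hne : (T.shadow d).Nonempty := ⟨ζ, hζ⟩
  have e1 := exact_dart hr d h (hpos u hne).ne' hed
  have e2 := exact_dart hr d h (hpos u hne).ne' hged
  have hmT : (νT u (T.shadow (g • e))).toReal =
      Real.exp (-(T.critExp * T.busemann ζ (g⁻¹ • u) u)) * (νT u (T.shadow e)).toReal := by
    rw [← ps_scale_toReal D.hT u (g⁻¹ • u) (T.measurableSet_shadow e) _ g1]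
    have := map_apply' D.hT g (g⁻¹ • u) (T.measurableSet_shadow (g • e))
    rw [smul_inv_smul] at this
    rw [this]
    congr 2
    ext ξ
    exact T.smul_mem_shadow g e ξ
  have hmS : (νS (f u) (T.shadow (g • e))).toReal =
      Real.exp (-(S.critExp * S.busemann ζ (g⁻¹ • f u) (f u))) *
        (νS (f u) (T.shadow e)).toReal := by
    rw [← ps_scale_toReal D.hS (f u) (g⁻¹ • f u) (T.measurableSet_shadow e) _ g2]
    have := map_apply' D.hS g (g⁻¹ • f u) (T.measurableSet_shadow (g • e))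
    rw [smul_inv_smul] at this
    rw [this]
    congr 2
    ext ξ
    exact T.smul_mem_shadow g e ξ
  rw [hmT, hmS] at e2
  have hne' : (T.shadow e).Nonempty := ⟨ζ, hζe⟩
  set X := Real.exp (-(T.critExp * T.busemann ζ (g⁻¹ • u) u)) with hX
  set Y := Real.exp (-(S.critExp * S.busemann ζ (g⁻¹ • f u) (f u))) with hY
  have p1 := hpos u hne'
  have p2 := hpos u hne
  have p3 := hposS (f u) hne'
  have p4 := hposS (f u) hne
  have e3 : Y * ((νS (f u) (T.shadow e)).toReal * (νT u (T.shadow d)).toReal) =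
      X * ((νS (f u) (T.shadow e)).toReal * (νT u (T.shadow d)).toReal) := by
    calc Y * ((νS (f u) (T.shadow e)).toReal * (νT u (T.shadow d)).toReal)
        = Y * (νS (f u) (T.shadow e)).toReal * (νT u (T.shadow d)).toReal := by ring
      _ = X * (νT u (T.shadow e)).toReal * (νS (f u) (T.shadow d)).toReal := e2
      _ = X * ((νT u (T.shadow e)).toReal * (νS (f u) (T.shadow d)).toReal) := by ring
      _ = _ := by rw [e1]
  have e4 := mul_right_cancel₀ (mul_pos p3 p2).ne' e3
  rw [hX, hY, Real.exp_eq_exp] at e4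
  linarith

end OuterTree

end Pool.Agent.OuterSpace
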