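import Pool.Agent.Lib.MP_79396e_al.Exact

open SimpleGraph MeasureTheory Filter Topology
open scoped ENNReal NNReal

namespace Pool.Agent.OuterSpace

namespace Boundary

variable {N : ℕ}

/-- an infinite family of boundary points -/
def wordK (i0 i1 : Fin N) (k : ℕ) : Boundary N where
  letter n := if n < k then (i0, true) else (i1, true)
  reduced n := by
    intro _
    split_ifs <;> rfl

theorem infinite_boundary (hN : 2 ≤ N) : Infinite (Boundary N) := by
  let i0 : Fin N := ⟨0, by omega⟩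
  let i1 : Fin N := ⟨1, by omega⟩
  have h01 : i0 ≠ i1 := by
    intro h
    have := congrArg Fin.val h
    simp [i0, i1] at this
  apply Infinite.of_injective (wordK i0 i1)
  have key : ∀ k l : ℕ, k < l → wordK i0 i1 k ≠ wordK i0 i1 l := by
    intro k l hkl h
    have h1 : (wordK i0 i1 k).letter k = (wordK i0 i1 l).letter k := by rw [h]
    unfold wordK at h1
    simp only [lt_irrefl, if_false, hkl, if_true] at h1
    exact h01 (congrArg Prod.fst h1).symm
  intro k l h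
  rcases lt_trichotomy k l with h1 | h1 | h1
  · exact absurd h (key k l h1)
  · exact h1
  · exact absurd h.symm (key l k h1)

end Boundary

namespace OuterTree

open Boundary

variable {N : ℕ} {T S : OuterTree N} {ξ ζ : Boundary N}

theorem gromov_smul (g : FreeGroup (Fin N)) (x : T.V) (hne : ξ ≠ ζ) :
    T.gromov x (g • ξ) (g • ζ) = T.gromov (g⁻¹ • x) ξ ζ := by
  obtain ⟨u, hu⟩ := T.line_nonempty hne
  rw [T.gromov_eq hu, T.gromov_eq ((T.mem_line_smul g ξ ζ u).2 hu)]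
  have h1 := busemann_smul g ξ (g⁻¹ • x) u
  have h2 := busemann_smul g ζ (g⁻¹ • x) u
  rw [smul_inv_smul] at h1 h2
  rw [h1, h2]

/-- a neighbourhood of `ξ` cut out by finitely many shadows -/
def nbd (T : OuterTree N) (F : Finset T.graph.Dart) (ξ : Boundary N) : Set (Boundary N) :=
  ⋂ e ∈ F, {ξ' | ξ' ∈ T.shadow e ↔ ξ ∈ T.shadow e}

theorem isOpen_nbd (F : Finset T.graph.Dart) (ξ : Boundary N) : IsOpen (nbd T F ξ) := by
  unfold nbd
  apply isOpen_biInter_finset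
  intro e _
  by_cases h : ξ ∈ T.shadow e
  · have : {ξ' | ξ' ∈ T.shadow e ↔ ξ ∈ T.shadow e} = T.shadow e := by
      ext ξ'; simp [h]
    rw [this]
    exact (T.isClopen_shadow e).isOpen
  · have : {ξ' | ξ' ∈ T.shadow e ↔ ξ ∈ T.shadow e} = (T.shadow e)ᶜ := by
      ext ξ'; simp [h]
    rw [this]
    exact (T.isClopen_shadow e).compl.isOpen

theorem mem_nbd (F : Finset T.graph.Dart) (ξ : Boundary N) : ξ ∈ nbd T F ξ := by
  unfold nbd
  simp

theorem busemann_nbd {x y : T.V} {ξ' : Boundary N} (h : ξ' ∈ nbd T (T.sepF x y) ξ) :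
    T.busemann ξ' x y = T.busemann ξ x y := by
  classical
  unfold nbd at h
  simp only [Set.mem_iInter] at h
  rw [busemann_eq, busemann_eq]
  unfold bus
  apply Finset.sum_congr rfl
  intro e he
  have h1 : ξ' ∈ T.shadow e ↔ ξ ∈ T.shadow e := h e he
  simp only [h1]

/-- The Gromov product is locally constant away from the diagonal. -/
theorem gromov_locconst (x : T.V) (hne : ξ ≠ ζ) : ∃ A B : Set (Boundary N), IsOpen A ∧ IsOpen B ∧
    ξ ∈ A ∧ ζ ∈ B ∧ ∀ ξ' ∈ A, ∀ ζ' ∈ B, ξ' ≠ ζ' ∧ T.gromov x ξ' ζ' = T.gromov x ξ ζ := by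
  obtain ⟨u, hu⟩ := T.line_nonempty hne
  refine ⟨T.shadow (T.dir u ξ) ∩ nbd T (T.sepF x u) ξ,
    T.shadow (T.dir u ζ) ∩ nbd T (T.sepF x u) ζ,
    (T.isClopen_shadow _).isOpen.inter (isOpen_nbd _ _),
    (T.isClopen_shadow _).isOpen.inter (isOpen_nbd _ _),
    ⟨T.mem_shadow_dir _ _, mem_nbd _ _⟩, ⟨T.mem_shadow_dir _ _, mem_nbd _ _⟩, ?_⟩
  rintro ξ' ⟨h1, h2⟩ ζ' ⟨h3, h4⟩
  have hl : u ∈ T.line ξ' ζ' := by
    intro h
    rw [T.dir_eq (T.dir_fst u ξ) h1, T.dir_eq (T.dir_fst u ζ) h3] at h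
    exact hu h
  refine ⟨?_, ?_⟩
  · rintro rfl
    exact hl rfl
  · rw [T.gromov_eq hu, T.gromov_eq hl, busemann_nbd h2, busemann_nbd h4]

variable {f : T.V → S.V} {νT : T.V → Measure (Boundary N)} {νS : S.V → Measure (Boundary N)}
  {μ : Measure (Boundary N × Boundary N)} {c : ℝ≥0}

/-- the difference of the scaled Gromov products -/
noncomputable def dlt (T S : OuterTree N) (f : T.V → S.V) (u : T.V) (ξ ζ : Boundary N) : ℝ :=
  T.critExp * T.gromov u ξ ζ - S.critExp * S.gromov (f u) ξ ζ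

theorem EqData.dlt_smul (D : EqData T S νT νS f μ c) (hr : T.IsReduced) {d : T.graph.Dart}
    {u : T.V}
    (h : ∀ m, T.aff (νT u) (νS (f u)) m d = T.aff (νT u) (νS (f u)) 0 d)
    (g : FreeGroup (Fin N)) (hne : ξ ≠ ζ) (hξ : ξ ∈ T.shadow d) (hζ : ζ ∈ T.shadow d)
    (hgξ : g • ξ ∈ T.shadow d) (hgζ : g • ζ ∈ T.shadow d) :
    dlt T S f u (g • ξ) (g • ζ) = dlt T S f u ξ ζ := by
  unfold dlt
  rw [gromov_smul g u hne, gromov_smul g (f u) hne, gromov_base u (g⁻¹ • u) hne,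
    gromov_base (f u) (g⁻¹ • f u) hne]
  have h1 := D.cocycle hr h g ξ hξ hgξ
  have h2 := D.cocycle hr h g ζ hζ hgζ
  linarith

theorem dlt_locconst (u : T.V) (hne : ξ ≠ ζ) {U : Set (Boundary N)} (hU : IsOpen U)
    (hξ : ξ ∈ U) (hζ : ζ ∈ U) : ∃ A B : Set (Boundary N), IsOpen A ∧ IsOpen B ∧
    ξ ∈ A ∧ ζ ∈ B ∧ A ⊆ U ∧ B ⊆ U ∧
    ∀ ξ' ∈ A, ∀ ζ' ∈ B, ξ' ≠ ζ' ∧ dlt T S f u ξ' ζ' = dlt T S f u ξ ζ := by
  obtain ⟨A1, B1, a1, a2, a3, a4, a5⟩ := gromov_locconst (T := T) u hne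
  obtain ⟨A2, B2, b1, b2, b3, b4, b5⟩ := gromov_locconst (T := S) (f u) hne
  refine ⟨A1 ∩ A2 ∩ U, B1 ∩ B2 ∩ U, (a1.inter b1).inter hU, (a2.inter b2).inter hU,
    ⟨⟨a3, b3⟩, hξ⟩, ⟨⟨a4, b4⟩, hζ⟩, fun _ h => h.2, fun _ h => h.2, ?_⟩
  rintro ξ' ⟨⟨h1, h2⟩, _⟩ ζ' ⟨⟨h3, h4⟩, _⟩
  refine ⟨(a5 ξ' h1 ζ' h3).1, ?_⟩
  unfold dlt
  rw [(a5 ξ' h1 ζ' h3).2, (b5 ξ' h2 ζ' h4).2]

/-- The difference is constant on the pairs of distinct points of the shadow of `d`. -/
theorem EqData.dlt_const (D : EqData T S νT νS f μ c) (hr : T.IsReduced) {d : T.graph.Dart}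
    {u : T.V}
    (h : ∀ m, T.aff (νT u) (νS (f u)) m d = T.aff (νT u) (νS (f u)) 0 d)
    {ξ1 ζ1 ξ2 ζ2 : Boundary N} (hne1 : ξ1 ≠ ζ1) (hne2 : ξ2 ≠ ζ2) (h1 : ξ1 ∈ T.shadow d)
    (h2 : ζ1 ∈ T.shadow d) (h3 : ξ2 ∈ T.shadow d) (h4 : ζ2 ∈ T.shadow d) :
    dlt T S f u ξ1 ζ1 = dlt T S f u ξ2 ζ2 := by
  have hU := (T.isClopen_shadow d).isOpen
  obtain ⟨A1, B1, a1, a2, a3, a4, a5, a6, a7⟩ := dlt_locconst (S := S) (f := f) u hne1 hU h1 h2
  obtain ⟨A2, B2, b1, b2, b3, b4, b5, b6, b7⟩ := dlt_locconst (S := S) (f := f) u hne2 hU h3 h4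
  obtain ⟨g, hg⟩ := exists_smul_compl D.hN b1 ⟨ξ2, b3⟩ a2 ⟨ζ1, a4⟩
  have c1 : ξ1 ∉ B1 := fun h' => (a7 ξ1 a3 ξ1 h').1 rfl
  have c2 : g • ξ1 ∈ A2 := hg ξ1 c1
  have c3 : ζ2 ∉ A2 := fun h' => (b7 ζ2 h' ζ2 b4).1 rfl
  have c4 : g⁻¹ • ζ2 ∈ B1 := by
    by_contra h'
    have := hg _ h'
    rw [smul_inv_smul] at this
    exact c3 this
  rw [← (a7 ξ1 a3 _ c4).2, ← (b7 _ c2 ζ2 b4).2]
  have h5 := D.dlt_smul hr h g (a7 ξ1 a3 _ c4).1 h1 (a6 c4) (b5 c2)
    (by rw [smul_inv_smul]; exact h4)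
  rw [smul_inv_smul] at h5
  exact h5.symm

theorem cr_smul {a b c d : Boundary N} (h : Distinct4 a b c d) (g : FreeGroup (Fin N)) (x : T.V) :
    T.cr x (g • a) (g • b) (g • c) (g • d) = T.cr x a b c d := by
  rw [cr_base h x (g⁻¹ • x)]
  unfold cr
  rw [gromov_smul g x h.ab, gromov_smul g x h.cd, gromov_smul g x h.ac, gromov_smul g x h.bd]

theorem EqData.cr_eq (D : EqData T S νT νS f μ c) (hr : T.IsReduced) {d : T.graph.Dart}
    {u : T.V}
    (h : ∀ m, T.aff (νT u) (νS (f u)) m d = T.aff (νT u) (νS (f u)) 0 d)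
    (p q r s : Boundary N) (hd : Distinct4 p q r s) :
    T.critExp * T.cr u p q r s = S.critExp * S.cr (f u) p q r s := by
  classical
  have hinf := infinite_boundary D.hN
  obtain ⟨η, hη⟩ := Infinite.exists_notMem_finset ({p, q, r, s} : Finset (Boundary N))
  have hV : IsOpen ((({p, q, r, s} : Finset (Boundary N)) : Set (Boundary N))ᶜ) :=
    (Finset.finite_toSet _).isClosed.isOpen_compl
  obtain ⟨g, hg⟩ := exists_smul_compl D.hN (T.isClopen_shadow d).isOpen (shadow_nonempty hr d)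
    hV ⟨η, hη⟩
  have g1 : g • p ∈ T.shadow d := hg p (by simp)
  have g2 : g • q ∈ T.shadow d := hg q (by simp)
  have g3 : g • r ∈ T.shadow d := hg r (by simp)
  have g4 : g • s ∈ T.shadow d := hg s (by simp)
  have n1 : g • p ≠ g • q := fun h' => hd.ab (smul_left_cancel g h')
  have n2 : g • r ≠ g • s := fun h' => hd.cd (smul_left_cancel g h')
  have n3 : g • p ≠ g • r := fun h' => hd.ac (smul_left_cancel g h')
  have n4 : g • q ≠ g • s := fun h' => hd.bd (smul_left_cancel g h')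
  rw [← cr_smul hd g u, ← cr_smul hd g (f u)]
  have e1 := D.dlt_const hr h n1 n3 g1 g2 g1 g3
  have e2 := D.dlt_const hr h n2 n4 g3 g4 g2 g4
  unfold dlt at e1 e2
  unfold cr
  linarith

/-- In the equality case the trees are homothetic. -/
theorem EqData.homothetic (D : EqData T S νT νS f μ c) (hTr : T.IsReduced) (hSr : S.IsReduced) :
    Homothetic T S T.critExp S.critExp := by
  obtain ⟨d, u, _, h⟩ := D.exists_exact hTr
  exact homothetic_of_cr hTr hSr (critExp_pos D.hN D.hT) (critExp_pos D.hN D.hS) u (f u)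
    fun p q r s hd => D.cr_eq hTr h p q r s hd

/-- The stretching factor is `h_T / h_S` only if the trees are homothetic. -/
theorem homothetic_of_stretch (hN : 2 ≤ N) (hTr : T.IsReduced) (hSr : S.IsReduced)
    (hS : S.IsPattersonSullivan νS) (hμ : T.IsPSCurrent μ)
    (heq : ENNReal.ofReal S.critExp * S.pairing μ ≤ ENNReal.ofReal T.critExp) :
    Homothetic T S T.critExp S.critExp := by
  have hinv := psCurrent_invariant hμ
  obtain ⟨⟨νT, x, c, hT, rfl⟩, hnorm⟩ := hμ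
  obtain ⟨f, hf⟩ := exists_equivariant T S
  have hline : ∀ (u : T.V) (A : Set (Boundary N × Boundary N)), MeasurableSet A →
      A ⊆ T.lineSet u → (c • (((νT x).prod (νT x)).restrict {p | p.1 ≠ p.2}).withDensity
        fun p => ENNReal.ofReal (Real.exp (2 * T.critExp * T.gromov x p.1 p.2))) A =
        c * ((νT u).prod (νT u)) A := by
    intro u A hA hAu
    rw [Measure.coe_nnreal_smul_apply]
    congr 1
    exact withDensity_lineSet hT x u hA hAu
  have D : EqData T S νT νS f (c • (((νT x).prod (νT x)).restrict {p | p.1 ≠ p.2}).withDensity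
        fun p => ENNReal.ofReal (Real.exp (2 * T.critExp * T.gromov x p.1 p.2))) c :=
    ⟨hN, hT, hS, hf, hline, hinv, hnorm, heq⟩
  exact D.homothetic hTr hSr

/-- The equality case of the Patterson-Sullivan intersection function. -/
theorem intersection_eq_one_iff (hN : 2 ≤ N) (hTr : T.IsReduced) (hSr : S.IsReduced)
    (hTv : T.volume = 1) (hSv : S.volume = 1)
    {μT μS : Measure (Boundary N × Boundary N)} (hμT : T.IsPSCurrent μT)
    (hμS : S.IsPSCurrent μS) :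
    (S.pairing μT).toReal * (T.pairing μS).toReal = 1 ↔ Equivalent T S := by
  constructor
  · intro h
    obtain ⟨⟨νT, xT, cT, hT, _⟩, _⟩ := id hμT
    obtain ⟨⟨νS, xS, cS, hS, _⟩, _⟩ := id hμS
    have hPt : S.pairing μT ≠ ∞ := pairing_psCurrent_ne_top hμT
    have hQt : T.pairing μS ≠ ∞ := pairing_psCurrent_ne_top hμS
    have h1 : S.pairing μT * T.pairing μS = 1 := by
      rw [← ENNReal.toReal_mul] at h
      rw [← ENNReal.ofReal_toReal (ENNReal.mul_ne_top hPt hQt), h, ENNReal.ofReal_one]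
    have h2 := stretch hN hT hμS
    have heq : ENNReal.ofReal S.critExp * S.pairing μT ≤ ENNReal.ofReal T.critExp := by
      calc ENNReal.ofReal S.critExp * S.pairing μT
          ≤ ENNReal.ofReal T.critExp * T.pairing μS * S.pairing μT := by gcongr
        _ = ENNReal.ofReal T.critExp * (S.pairing μT * T.pairing μS) := by ring
        _ = _ := by rw [h1, mul_one]
    have hH := homothetic_of_stretch hN hTr hSr hS hμT heq
    have hTp := critExp_pos hN hT
    have hSp := critExp_pos hN hS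
    have hvol := volume_homothetic hTp hSp hH
    rw [hTv, hSv, mul_one, mul_one, ENNReal.ofReal_eq_ofReal_iff hTp.le hSp.le] at hvol
    obtain ⟨φ, g1, g2, g3⟩ := hH
    refine ⟨φ, g1, g2, fun u v huv => ?_⟩
    have := g3 u v huv
    rw [← hvol] at this
    exact mul_left_cancel₀ hTp.ne' this
  · intro h
    exact intersection_of_equivalent h hμT hμS

end OuterTree

end Pool.Agent.OuterSpace
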