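import Pool.Agent.Lib.MP_79396e_al.Cross

open SimpleGraph MeasureTheory Filter Topology
open scoped ENNReal NNReal

namespace Pool.Agent.OuterSpace

namespace OuterTree

open Boundary

variable {N : ℕ} {T S : OuterTree N}

/-- covering relation of the shadows -/
def Cov (T : OuterTree N) (d e : T.graph.Dart) : Prop :=
  d ≠ e ∧ T.shadow d ⊆ T.shadow e ∧
    ∀ c : T.graph.Dart, T.shadow d ⊆ T.shadow c → T.shadow c ⊆ T.shadow e → c = d ∨ c = e

/-- In a reduced tree the incidence of oriented edges is determined by the shadows. -/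
theorem fst_eq_iff (hr : T.IsReduced) {d1 d2 : T.graph.Dart} (hne : d1 ≠ d2) :
    d1.fst = d2.fst ↔ T.Cov d1 d2.symm := by
  constructor
  · intro h
    have hne2 : d1 ≠ d2.symm := by
      intro h2
      rw [h2] at h
      exact d2.adj.ne h.symm
    have hsub : T.halfTree d1 ⊆ T.halfTree d2.symm :=
      child_subset (d := d2.symm) (c := d1) h (by rwa [Dart.symm_symm])
    refine ⟨hne2, T.shadow_mono hsub, ?_⟩
    intro c hc1 hc2
    have h1 := halfTree_subset_of_shadow_subset hr hc1
    have h2 := halfTree_subset_of_shadow_subset hr hc2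
    by_cases hv : d1.fst ∈ T.halfTree c
    · right
      symm
      apply T.dart_eq_of_cross c d2.symm
      · intro h3
        exact T.fst_not_mem d2.symm (h2 h3)
      · show d2.fst ∈ _
        rw [← h]; exact hv
    · left
      exact (T.dart_eq_of_cross c d1 hv (h1 (T.snd_mem_halfTree d1))).symm
  · rintro ⟨hne2, hsub, hcov⟩
    have hH := halfTree_subset_of_shadow_subset hr hsub
    by_contra hcon
    have hp : d1.fst ∈ T.halfTree d2.symm := by
      by_contra h
      exact hne2 (T.dart_eq_of_cross d2.symm d1 h (hH (T.snd_mem_halfTree d1)))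
    obtain ⟨c, hc1, hc2⟩ := T.exists_dart (u := d2.fst) (z := d1.fst) (Ne.symm hcon)
    have hnot : d2.fst ∉ T.halfTree d1 := by
      intro h
      apply hne2
      symm
      apply T.dart_eq_of_cross d1 d2.symm
      · intro h3
        exact T.fst_not_mem d2.symm (hH h3)
      · exact h
    have hce : T.halfTree c ⊆ T.halfTree d2.symm := by
      apply child_subset (d := d2.symm) (c := c) hc1
      rw [Dart.symm_symm]
      intro h
      rw [h] at hc2
      exact (T.mem_symm_iff d2 _).1 hp hc2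
    have hdc : T.halfTree d1 ⊆ T.halfTree c := by
      intro z hz
      have h1 : c.fst ∉ T.halfTree d1 := by rw [hc1]; exact hnot
      rw [T.nested (Or.inl h1) hz]
      by_contra h2
      have h3 := T.dart_eq_of_cross c d1.symm h2 hc2
      apply hnot
      rw [← hc1, ← h3]
      exact T.snd_mem_halfTree d1
    rcases hcov c (T.shadow_mono hdc) (T.shadow_mono hce) with h | h
    · rw [h] at hc1
      exact hcon hc1
    · rw [h] at hc1
      exact d2.adj.ne hc1.symm

theorem exists_dart_at (hr : T.IsReduced) (v : T.V) : ∃ d : T.graph.Dart, d.fst = v := by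
  have h1 : (T.graph.neighborSet v).Nonempty := by
    rw [← Set.encard_ne_zero]
    intro h
    have := hr v
    rw [h] at this
    exact absurd this (by simp)
  obtain ⟨w, hw⟩ := h1
  exact ⟨⟨(v, w), hw⟩, rfl⟩

/-- There is an equivariant isomorphism of the metric trees up to the factor `α / β`. -/
def Homothetic (T S : OuterTree N) (α β : ℝ) : Prop :=
  ∃ φ : T.V ≃ S.V, (∀ (g : FreeGroup (Fin N)) (v : T.V), φ (g • v) = g • φ v) ∧
    (∀ u v : T.V, T.graph.Adj u v ↔ S.graph.Adj (φ u) (φ v)) ∧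
    ∀ u v : T.V, T.graph.Adj u v → β * S.len s(φ u, φ v) = α * T.len s(u, v)

theorem homothetic_of_cr (hTr : T.IsReduced) (hSr : S.IsReduced) {α β : ℝ} (hα : 0 < α)
    (hβ : 0 < β) (x : T.V) (y : S.V)
    (hcr : ∀ a b c d : Boundary N, Distinct4 a b c d →
      α * T.cr x a b c d = β * S.cr y a b c d) : Homothetic T S α β := by
  choose θ hθ hlen using exists_dart_of_cr hTr hα hβ x y hcr
  choose θ' hθ' hlen' using exists_dart_of_cr hSr hβ hα y x
    (fun a b c d h => (hcr a b c d h).symm)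
  have h1 : ∀ e, θ' (θ e) = e := fun e => shadow_injective hTr (by rw [hθ', hθ])
  have h2 : ∀ e, θ (θ' e) = e := fun e => shadow_injective hSr (by rw [hθ, hθ'])
  have hlen2 : ∀ e, β * S.dlen (θ e) = α * T.dlen e := by
    intro e
    apply le_antisymm (hlen e)
    have := hlen' (θ e)
    rwa [h1] at this
  have hinj : Function.Injective θ := fun e e' h => by rw [← h1 e, h, h1]
  have hinj' : Function.Injective θ' := fun e e' h => by rw [← h2 e, h, h2]
  have hsmul : ∀ (g : FreeGroup (Fin N)) (e : T.graph.Dart), θ (g • e) = g • θ e := by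
    intro g e
    apply shadow_injective hSr
    rw [hθ]
    ext ξ
    rw [← smul_inv_smul g ξ, T.smul_mem_shadow, S.smul_mem_shadow, hθ]
  have hsymm : ∀ e : T.graph.Dart, θ e.symm = (θ e).symm := by
    intro e
    apply shadow_injective hSr
    rw [hθ]
    ext ξ
    rw [T.mem_shadow_symm_iff, S.mem_shadow_symm_iff, hθ]
  have hsymm' : ∀ e : S.graph.Dart, θ' e.symm = (θ' e).symm := by
    intro e
    apply hinj
    rw [h2, hsymm, h2]
  have hcov : ∀ d e : T.graph.Dart, T.Cov d e ↔ S.Cov (θ d) (θ e) := by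
    intro d e
    unfold Cov
    rw [hθ, hθ]
    constructor
    · rintro ⟨g1, g2, g3⟩
      refine ⟨fun h => g1 (hinj h), g2, fun c hc1 hc2 => ?_⟩
      have := g3 (θ' c) (by rw [hθ']; exact hc1) (by rw [hθ']; exact hc2)
      rcases this with h | h
      · left; rw [← h, h2]
      · right; rw [← h, h2]
    · rintro ⟨g1, g2, g3⟩
      refine ⟨fun h => g1 (by rw [h]), g2, fun c hc1 hc2 => ?_⟩
      have := g3 (θ c) (by rw [hθ]; exact hc1) (by rw [hθ]; exact hc2)
      rcases this with h | h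
      · left; exact hinj h
      · right; exact hinj h
  have hfst : ∀ d1 d2 : T.graph.Dart, d1.fst = d2.fst ↔ (θ d1).fst = (θ d2).fst := by
    intro d1 d2
    by_cases hd : d1 = d2
    · rw [hd]; simp
    · rw [fst_eq_iff hTr hd, fst_eq_iff hSr (fun h => hd (hinj h)), hcov, hsymm]
  have hfst' : ∀ d1 d2 : S.graph.Dart, d1.fst = d2.fst → (θ' d1).fst = (θ' d2).fst := by
    intro d1 d2 h
    rw [hfst, h2, h2]
    exact h
  choose at1 hat1 using exists_dart_at hTr
  choose at2 hat2 using exists_dart_at hSr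
  let φ : T.V → S.V := fun v => (θ (at1 v)).fst
  let ψ : S.V → T.V := fun v => (θ' (at2 v)).fst
  have hφ : ∀ d : T.graph.Dart, φ d.fst = (θ d).fst := fun d => (hfst _ _).1 (hat1 d.fst)
  have hψ : ∀ d : S.graph.Dart, ψ d.fst = (θ' d).fst := fun d => hfst' _ _ (hat2 d.fst)
  have hφ2 : ∀ d : T.graph.Dart, φ d.snd = (θ d).snd := by
    intro d
    have := hφ d.symm
    rw [hsymm] at this
    exact this
  have hψ2 : ∀ d : S.graph.Dart, ψ d.snd = (θ' d).snd := by
    intro d
    have := hψ d.symm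
    rw [hsymm'] at this
    exact this
  have hψφ : ∀ v, ψ (φ v) = v := by
    intro v
    show ψ (θ (at1 v)).fst = v
    rw [hψ, h1, hat1]
  have hφψ : ∀ v, φ (ψ v) = v := by
    intro v
    show φ (θ' (at2 v)).fst = v
    rw [hφ, h2, hat2]
  refine ⟨⟨φ, ψ, hψφ, hφψ⟩, ?_, ?_, ?_⟩
  · intro g v
    show φ (g • v) = g • φ v
    rw [← hat1 v, ← smul_fst, hφ, hφ, hsmul, smul_fst]
  · intro u v
    show T.graph.Adj u v ↔ S.graph.Adj (φ u) (φ v)
    constructor
    · intro h
      have g1 := hφ ⟨(u, v), h⟩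
      have g2 := hφ2 ⟨(u, v), h⟩
      have g3 := (θ ⟨(u, v), h⟩).adj
      have g4 : φ u = (θ ⟨(u, v), h⟩).fst := g1
      have g5 : φ v = (θ ⟨(u, v), h⟩).snd := g2
      rw [g4, g5]
      exact g3
    · intro h
      have g1 := hψ ⟨(φ u, φ v), h⟩
      have g2 := hψ2 ⟨(φ u, φ v), h⟩
      have g3 := (θ' ⟨(φ u, φ v), h⟩).adj
      have g4 : ψ (φ u) = (θ' ⟨(φ u, φ v), h⟩).fst := g1
      have g5 : ψ (φ v) = (θ' ⟨(φ u, φ v), h⟩).snd := g2
      rw [← g4, ← g5, hψφ, hψφ] at g3
      exact g3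
  · intro u v h
    show β * S.len s(φ u, φ v) = α * T.len s(u, v)
    have g1 : φ u = (θ ⟨(u, v), h⟩).fst := hφ ⟨(u, v), h⟩
    have g2 : φ v = (θ ⟨(u, v), h⟩).snd := hφ2 ⟨(u, v), h⟩
    have g3 := hlen2 ⟨(u, v), h⟩
    rw [g1, g2]
    exact g3

/-- Sums over the orbits of oriented edges are transported by equivariant bijections. -/
theorem tsum_orbits_congr (Θ : T.graph.Dart ≃ S.graph.Dart)
    (hΘ : ∀ (g : FreeGroup (Fin N)) (d : T.graph.Dart), Θ (g • d) = g • Θ d)
    (F : T.graph.Dart → ℝ≥0∞) (G : S.graph.Dart → ℝ≥0∞)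
    (hG : ∀ (g : FreeGroup (Fin N)) (d : S.graph.Dart), G (g • d) = G d)
    (hFG : ∀ d, F d = G (Θ d)) :
    ∑' q : T.DQ, F q.out = ∑' q : S.DQ, G q.out := by
  have hrel : ∀ a b : T.graph.Dart, (MulAction.orbitRel (FreeGroup (Fin N)) T.graph.Dart) a b ↔
      (MulAction.orbitRel (FreeGroup (Fin N)) S.graph.Dart) (Θ a) (Θ b) := by
    intro a b
    rw [MulAction.orbitRel_apply, MulAction.orbitRel_apply]
    constructor
    · rintro ⟨g, hg⟩
      exact ⟨g, by
        show g • Θ b = Θ a
        rw [← hΘ]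
        exact congrArg Θ hg⟩
    · rintro ⟨g, hg⟩
      refine ⟨g, ?_⟩
      apply Θ.injective
      show Θ (g • b) = Θ a
      rw [hΘ]
      exact hg
  let E : T.DQ ≃ S.DQ := Quotient.congr Θ hrel
  rw [← E.tsum_eq]
  congr 1
  funext q
  rw [hFG]
  have h1 : (Quotient.mk'' (E q).out : S.DQ) = Quotient.mk'' (Θ q.out) := by
    rw [Quotient.out_eq']
    have h2 : E (Quotient.mk'' q.out) = Quotient.mk'' (Θ q.out) := rfl
    rw [← h2, Quotient.out_eq']
  obtain ⟨g, hg⟩ := Quotient.exact' h1
  have hg' : g • Θ q.out = (E q).out := hg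
  rw [← hg', hG]

/-- the volume of the quotient graph: the sum of the lengths of its edges -/
noncomputable def volume (T : OuterTree N) : ℝ≥0∞ :=
  (∑' o : MulAction.orbitRel.Quotient (FreeGroup (Fin N)) T.graph.Dart,
    ENNReal.ofReal (T.len o.out.edge)) / 2

/-- the bijection of the oriented edges induced by an isomorphism -/
def dartEquiv (φ : T.V ≃ S.V) (hφ : ∀ u v : T.V, T.graph.Adj u v ↔ S.graph.Adj (φ u) (φ v)) :
    T.graph.Dart ≃ S.graph.Dart where
  toFun d := ⟨(φ d.fst, φ d.snd), (hφ _ _).1 d.adj⟩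
  invFun d := ⟨(φ.symm d.fst, φ.symm d.snd), (hφ _ _).2 (by simp)⟩
  left_inv d := by
    apply Dart.ext
    simp
  right_inv d := by
    apply Dart.ext
    simp

theorem volume_homothetic {α β : ℝ} (hα : 0 < α) (hβ : 0 < β) (h : Homothetic T S α β) :
    ENNReal.ofReal α * T.volume = ENNReal.ofReal β * S.volume := by
  obtain ⟨φ, h1, h2, h3⟩ := h
  unfold volume
  rw [← mul_div_assoc, ← mul_div_assoc, ← ENNReal.tsum_mul_left, ← ENNReal.tsum_mul_left]
  congr 1
  apply tsum_orbits_congr (dartEquiv φ h2)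
    (F := fun d => ENNReal.ofReal α * ENNReal.ofReal (T.len d.edge))
    (G := fun d => ENNReal.ofReal β * ENNReal.ofReal (S.len d.edge))
  · intro g d
    apply Dart.ext
    show (φ (g • d.fst), φ (g • d.snd)) = (g • φ d.fst, g • φ d.snd)
    rw [h1, h1]
  · intro g d
    have := S.dlen_smul g d
    unfold dlen at this
    simp only [this]
  · intro d
    show ENNReal.ofReal α * ENNReal.ofReal (T.len d.edge) = _
    rw [← ENNReal.ofReal_mul hα.le]
    show _ = ENNReal.ofReal β * ENNReal.ofReal (S.len s(φ d.fst, φ d.snd))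
    rw [← ENNReal.ofReal_mul hβ.le, h3 _ _ d.adj]
    rfl

end OuterTree

end Pool.Agent.OuterSpace
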