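import Pool.Agent.Lib.MP_79396e_al.Words

open SimpleGraph MeasureTheory Filter Topology
open scoped ENNReal NNReal

namespace Pool.Agent.OuterSpace

namespace Boundary

variable {N : ℕ}

/-- the infinite word that repeats the last letter of a nonempty reduced word for ever -/
noncomputable def ofWord (L : List (Fin N × Bool)) (hL : FreeGroup.IsReduced L) (hne : L ≠ []) :
    Boundary N where
  letter i := L.getD i (L.getLast hne)
  reduced n := by
    by_cases h : n + 1 < L.length
    · intro h1
      have h2 : L.getD n (L.getLast hne) = L[n] := by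
        rw [List.getD_eq_getElem]
      have h3 : L.getD (n + 1) (L.getLast hne) = L[n + 1] := by
        rw [List.getD_eq_getElem]
      rw [h2, h3] at h1 ⊢
      unfold FreeGroup.IsReduced at hL
      rw [List.isChain_iff_getElem] at hL
      exact hL n h h1
    · intro _
      have h3 : L.getD (n + 1) (L.getLast hne) = L.getLast hne := by
        rw [List.getD_eq_default]
        omega
      rw [h3]
      by_cases h4 : n < L.length
      · have h5 : n = L.length - 1 := by omega
        have h2 : L.getD n (L.getLast hne) = L[n] := by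
          rw [List.getD_eq_getElem]
        rw [h2, List.getLast_eq_getElem]
        simp only [h5]
      · have h2 : L.getD n (L.getLast hne) = L.getLast hne := by
          rw [List.getD_eq_default]
          omega
        rw [h2]

theorem pre_ofWord (L : List (Fin N × Bool)) (hL : FreeGroup.IsReduced L) (hne : L ≠ []) :
    (ofWord L hL hne).pre L.length = FreeGroup.mk L := by
  unfold pre
  congr 1
  apply List.ext_getElem
  · simp
  · intro i h1 h2
    simp [ofWord, h2]

theorem exists_pre_eq (g : FreeGroup (Fin N)) (hg : g ≠ 1) :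
    ∃ ξ : Boundary N, ξ.pre g.norm = g := by
  have hne : g.toWord ≠ [] := by
    intro h
    exact hg (FreeGroup.toWord_eq_nil_iff.1 h)
  refine ⟨ofWord g.toWord FreeGroup.isReduced_toWord hne, ?_⟩
  unfold FreeGroup.norm
  rw [pre_ofWord, FreeGroup.mk_toWord]

theorem finite_norm_lt (n : ℕ) : {g : FreeGroup (Fin N) | g.norm < n}.Finite := by
  have h1 : {g : FreeGroup (Fin N) | g.norm < n} =
      FreeGroup.toWord ⁻¹' {l : List (Fin N × Bool) | l.length < n} := rfl
  rw [h1]
  exact (List.finite_length_lt _ n).preimage FreeGroup.toWord_injective.injOn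

end Boundary

namespace OuterTree

open Boundary

variable {N : ℕ}

/-- Every vertex of the tree has at least three neighbours. (This is the usual simplicial
structure of a point of outer space, whose vertices are the branch points.) -/
def IsReduced (T : OuterTree N) : Prop := ∀ v : T.V, 3 ≤ (T.graph.neighborSet v).encard

variable {T S : OuterTree N}

theorem third_dart (hr : T.IsReduced) (d1 d2 : T.graph.Dart) :
    ∃ c : T.graph.Dart, c.fst = d1.fst ∧ c ≠ d1 ∧ c ≠ d2 := by
  obtain ⟨t, ht, htc⟩ := Set.exists_subset_encard_eq (hr d1.fst)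
  obtain ⟨x, y, z, hxy, hxz, hyz, rfl⟩ := Set.encard_eq_three.1 htc
  have hx : T.graph.Adj d1.fst x := ht (by simp)
  have hy : T.graph.Adj d1.fst y := ht (by simp)
  have hz : T.graph.Adj d1.fst z := ht (by simp)
  have key : ∃ w, T.graph.Adj d1.fst w ∧ w ≠ d1.snd ∧ w ≠ d2.snd := by
    by_contra hcon
    push Not at hcon
    have h1 := hcon x hx
    have h2 := hcon y hy
    have h3 := hcon z hz
    by_cases hx1 : x = d1.snd
    · have hy1 : y ≠ d1.snd := fun h' => hxy (hx1.trans h'.symm)
      have hz1 : z ≠ d1.snd := fun h' => hxz (hx1.trans h'.symm)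
      exact hyz ((h2 hy1).trans (h3 hz1).symm)
    · by_cases hy1 : y = d1.snd
      · have hz1 : z ≠ d1.snd := fun h' => hyz (hy1.trans h'.symm)
        exact hxz ((h1 hx1).trans (h3 hz1).symm)
      · exact hxy ((h1 hx1).trans (h2 hy1).symm)
  obtain ⟨w, hw, h1, h2⟩ := key
  refine ⟨⟨(d1.fst, w), hw⟩, rfl, ?_, ?_⟩
  · intro h3
    exact h1 (congrArg (fun d : T.graph.Dart => d.snd) h3)
  · intro h3
    exact h2 (congrArg (fun d : T.graph.Dart => d.snd) h3)

theorem convex_compl (e : T.graph.Dart) {x z w : T.V} (p : T.graph.Walk x z) (hp : p.IsPath)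
    (hx : x ∉ T.halfTree e) (hz : z ∉ T.halfTree e) (hw : w ∈ p.support) :
    w ∉ T.halfTree e := by
  classical
  intro h
  have h1 := T.sep_subset_darts (p.takeUntil w hw) (e := e) ⟨hx, h⟩
  have h2 := p.darts_takeUntil_subset_darts hw h1
  exact hz (T.darts_subset_sep p hp h2).2

/-- Every half tree contains a point of every orbit. -/
theorem exists_orbit_mem (x0 : T.V) (d : T.graph.Dart) :
    ∃ g : FreeGroup (Fin N), g • x0 ∈ T.halfTree d := by
  by_contra hcon
  push Not at hcon
  let A : Set T.V := {v | ∀ g : FreeGroup (Fin N), v ∉ T.halfTree (g • d)}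
  have hx0 : x0 ∈ A := by
    intro g h
    rw [T.mem_halfTree_smul] at h
    exact hcon _ h
  have hinv : ∀ g : FreeGroup (Fin N), ∀ v ∈ A, g • v ∈ A := by
    intro g v hv g' h
    rw [T.mem_halfTree_smul, ← mul_smul] at h
    apply hv (g⁻¹ * g')
    rw [T.mem_halfTree_smul, mul_inv_rev, inv_inv]
    exact h
  have hr : ∀ v : A, (T.graph.induce A).Reachable ⟨x0, hx0⟩ v := by
    rintro ⟨v, hv⟩
    obtain ⟨p, hp⟩ := T.exists_path x0 v
    have hsup : ∀ w ∈ p.support, w ∈ A := fun w hw g =>
      convex_compl (g • d) p hp (hx0 g) (hv g) hw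
    exact ⟨p.induce A hsup⟩
  have : Nonempty A := ⟨⟨x0, hx0⟩⟩
  have hA := T.minimal A hinv ⟨fun a b => (hr a).symm.trans (hr b)⟩
  have h1 : d.snd ∈ A := hA ▸ Set.mem_univ _
  have h2 := h1 1
  rw [one_smul] at h2
  exact h2 (T.snd_mem_halfTree d)

theorem child_subset {d c : T.graph.Dart} (h : c.fst = d.snd) (hne : c ≠ d.symm) :
    T.halfTree c ⊆ T.halfTree d := by
  intro z hz
  have h1 : d.fst ∉ T.halfTree c := by
    intro h1
    apply hne
    symm
    apply T.dart_eq_of_cross c d.symm
    · show d.snd ∉ _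
      rw [← h]; exact T.fst_not_mem c
    · exact h1
  have h2 : c.snd ∈ T.halfTree d := by
    by_contra h2
    apply hne
    have h3 := T.dart_eq_of_cross d c.symm h2 (by
      show c.fst ∈ _
      rw [h]; exact T.snd_mem_halfTree d)
    rw [← h3, Dart.symm_symm]
  exact (T.nested (Or.inl h1) hz).2 h2

/-- In a reduced tree every oriented edge has a boundary point beyond it. -/
theorem shadow_nonempty (hr : T.IsReduced) (d : T.graph.Dart) : (T.shadow d).Nonempty := by
  classical
  have hnext : ∀ d : T.graph.Dart, ∃ c : T.graph.Dart, c.fst = d.snd ∧ c ≠ d.symm := by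
    intro d
    obtain ⟨c, h1, h2, _⟩ := third_dart hr d.symm d.symm
    exact ⟨c, h1, h2⟩
  choose next hnext1 hnext2 using hnext
  have hsub : ∀ i k : ℕ, T.halfTree (next^[i + k] d) ⊆ T.halfTree (next^[i] d) := by
    intro i k
    induction k with
    | zero => exact subset_rfl
    | succ k ih =>
      rw [← add_assoc, Function.iterate_succ_apply']
      exact (child_subset (hnext1 _) (hnext2 _)).trans ih
  have hmem : ∀ i k : ℕ, (next^[i + (k + 1)] d).fst ∈ T.halfTree (next^[i] d) := by
    intro i k
    rw [← add_assoc, Function.iterate_succ_apply', hnext1]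
    exact hsub i k (T.snd_mem_halfTree _)
  have hinj : Function.Injective fun i : ℕ => next^[i] d := by
    have key : ∀ i j : ℕ, i < j → next^[i] d ≠ next^[j] d := by
      intro i j hij h
      obtain ⟨k, rfl⟩ : ∃ k, j = i + (k + 1) := ⟨j - i - 1, by omega⟩
      have h1 := hmem i k
      rw [← h] at h1
      exact T.fst_not_mem _ h1
    intro i j h
    rcases lt_trichotomy i j with h1 | h1 | h1
    · exact absurd h (key i j h1)
    · exact h1
    · exact absurd h.symm (key j i h1)
  have hout : ∀ z : T.V, ∃ k, z ∉ T.halfTree (next^[k] d) := by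
    intro z
    by_contra hcon
    push Not at hcon
    have h1 : (Finset.range ((T.sepF d.fst z).card + 1)).image (fun i => next^[i] d) ⊆
        T.sepF d.fst z := by
      intro e he
      rw [Finset.mem_image] at he
      obtain ⟨k, _, rfl⟩ := he
      rw [mem_sepF]
      refine ⟨?_, hcon k⟩
      intro h2
      have h3 := hsub 0 k
      rw [zero_add] at h3
      exact T.fst_not_mem d (h3 h2)
    have h2 := Finset.card_le_card h1
    rw [Finset.card_image_of_injective _ hinj, Finset.card_range] at h2
    omega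
  have hout' : ∀ F : Finset T.V, ∃ k, ∀ z ∈ F, z ∉ T.halfTree (next^[k] d) := by
    intro F
    induction F using Finset.induction_on with
    | empty => exact ⟨0, fun z hz => absurd hz (Finset.notMem_empty z)⟩
    | insert a F _ ih =>
      obtain ⟨k, hk⟩ := ih
      obtain ⟨k', hk'⟩ := hout a
      refine ⟨k + k', fun z hz => ?_⟩
      rw [Finset.mem_insert] at hz
      rcases hz with rfl | hz
      · intro h
        apply hk'
        rw [add_comm] at h
        exact hsub k' k h
      · intro h
        exact hk z hz (hsub k k' h)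
  obtain ⟨x0⟩ := T.isTree.connected.nonempty
  obtain ⟨n0, hn0⟩ := T.exists_shadow_bound d x0
  obtain ⟨k, hk⟩ := hout' ((finite_norm_lt (N := N) (n0 + 1)).toFinset.image fun g => g • x0)
  obtain ⟨g, hg⟩ := exists_orbit_mem x0 (next^[k] d)
  have hgn : n0 + 1 ≤ g.norm := by
    by_contra hcon
    apply hk (g • x0) _ hg
    rw [Finset.mem_image]
    refine ⟨g, ?_, rfl⟩
    rw [Set.Finite.mem_toFinset]
    show g.norm < n0 + 1
    omega
  have hg1 : g ≠ 1 := by
    rintro rfl
    rw [FreeGroup.norm_one] at hgn
    omega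
  obtain ⟨ξ, hξ⟩ := exists_pre_eq g hg1
  refine ⟨ξ, ?_⟩
  rw [hn0 ξ g.norm (by omega), hξ]
  have h3 := hsub 0 k
  rw [zero_add] at h3
  exact h3 hg

theorem shadow_disjoint_of_halfTree {d c : T.graph.Dart}
    (h : ∀ z, z ∈ T.halfTree d → z ∉ T.halfTree c) {ξ : Boundary N} (hd : ξ ∈ T.shadow d)
    (hc : ξ ∈ T.shadow c) : False := by
  obtain ⟨x0⟩ := T.isTree.connected.nonempty
  obtain ⟨n, h1, h2⟩ := ((hd x0).and (hc x0)).exists
  exact h _ h1 h2

/-- In a reduced tree an oriented edge is determined by its shadow. -/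
theorem shadow_injective_aux (hr : T.IsReduced) {d d' : T.graph.Dart}
    (h : T.shadow d = T.shadow d') (hsub : T.halfTree d ⊆ T.halfTree d') : d = d' := by
  by_contra hne
  have h1 : d.fst ∈ T.halfTree d' := by
    by_contra h1
    exact hne (T.dart_eq_of_cross d' d h1 (hsub (T.snd_mem_halfTree d)))
  -- the direction back to the tail of `d'`
  obtain ⟨b, hb1, hb2⟩ := T.exists_dart (u := d.fst) (z := d'.fst) (by
    intro h2
    rw [h2] at h1
    exact T.fst_not_mem d' h1)
  obtain ⟨c, hc1, hc2, hc3⟩ := third_dart hr d b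
  obtain ⟨ξ, hξ⟩ := shadow_nonempty hr c
  have h3 : d'.fst ∉ T.halfTree c := by
    intro h3
    exact hc3 (T.dart_unique (hc1.trans hb1.symm) h3 hb2)
  have h4 : T.halfTree c ⊆ T.halfTree d' := by
    intro z hz
    rw [T.nested (Or.inl h3) hz]
    by_contra h5
    have h6 := T.dart_eq_of_cross d' c.symm h5 (by
      show c.fst ∈ _
      rw [hc1]; exact h1)
    have h7 : c = d'.symm := by rw [← h6, Dart.symm_symm]
    apply h3
    rw [h7]
    exact T.fst_mem_halfTree_symm d'
  have h5 : ξ ∈ T.shadow d := by
    rw [h]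
    exact T.shadow_mono h4 hξ
  exact hc2 (T.shadow_unique hc1 hξ h5)

theorem halfTree_cases (d c : T.graph.Dart) :
    T.halfTree d ⊆ T.halfTree c ∨ T.halfTree c ⊆ T.halfTree d ∨
      (∀ z, z ∈ T.halfTree d → z ∉ T.halfTree c) ∨
      (∀ z, z ∈ T.halfTree d.symm → z ∉ T.halfTree c.symm) := by
  by_cases h1 : c.fst ∉ T.halfTree d ∨ c.snd ∉ T.halfTree d
  · by_cases h2 : d.snd ∈ T.halfTree c
    · left
      intro z hz
      exact (T.nested h1 hz).2 h2
    · right; right; left
      intro z hz h3
      exact h2 ((T.nested h1 hz).1 h3)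
  · push Not at h1
    by_cases h2 : d.fst ∈ T.halfTree c
    · right; right; right
      intro z hz h3
      have h4 : d.fst ∉ T.halfTree c.symm := by rw [T.mem_symm_iff, not_not]; exact h2
      have h5 := (T.nested (e := c.symm) (d := d) (Or.inl h4) h3).2 h1.1
      exact (T.mem_symm_iff d z).1 hz h5
    · right; left
      intro z hz
      exact (T.nested (e := c) (d := d) (Or.inl h2) hz).2 h1.2

theorem shadow_injective (hr : T.IsReduced) {d d' : T.graph.Dart}
    (h : T.shadow d = T.shadow d') : d = d' := by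
  rcases halfTree_cases d d' with h1 | h1 | h1 | h1
  · exact shadow_injective_aux hr h h1
  · exact (shadow_injective_aux hr h.symm h1).symm
  · obtain ⟨ξ, hξ⟩ := shadow_nonempty hr d
    exact (shadow_disjoint_of_halfTree h1 hξ (h ▸ hξ)).elim
  · obtain ⟨ξ, hξ⟩ := shadow_nonempty hr d.symm
    refine (shadow_disjoint_of_halfTree h1 hξ ?_).elim
    rw [T.mem_shadow_symm_iff] at hξ ⊢
    rwa [← h]

/-- In a reduced tree inclusion of shadows is inclusion of half trees. -/
theorem halfTree_subset_of_shadow_subset (hr : T.IsReduced) {d c : T.graph.Dart}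
    (h : T.shadow d ⊆ T.shadow c) : T.halfTree d ⊆ T.halfTree c := by
  rcases halfTree_cases d c with h1 | h1 | h1 | h1
  · exact h1
  · have h2 := shadow_injective hr (h.antisymm (T.shadow_mono h1))
    rw [h2]
  · obtain ⟨ξ, hξ⟩ := shadow_nonempty hr d
    exact (shadow_disjoint_of_halfTree h1 hξ (h hξ)).elim
  · obtain ⟨ξ, hξ⟩ := shadow_nonempty hr c.symm
    have h2 : ξ ∈ T.shadow d.symm := by
      rw [T.mem_shadow_symm_iff] at hξ ⊢
      exact fun h3 => hξ (h h3)
    exact (shadow_disjoint_of_halfTree h1 h2 hξ).elim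

end OuterTree

end Pool.Agent.OuterSpace
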