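import Pool.Agent.Lib.MP_79396e_al.Affinity

open SimpleGraph MeasureTheory Filter Topology
open scoped ENNReal NNReal

namespace Pool.Agent.OuterSpace

namespace OuterTree

open Boundary

variable {N : ℕ} {T S : OuterTree N}

theorem aff_smul_of {ν1 ν2 ν1' ν2' : Measure (Boundary N)} (g : FreeGroup (Fin N))
    (h1 : ∀ d : T.graph.Dart, ν1' (T.shadow (g • d)) = ν1 (T.shadow d))
    (h2 : ∀ d : T.graph.Dart, ν2' (T.shadow (g • d)) = ν2 (T.shadow d)) (n : ℕ) :
    ∀ d : T.graph.Dart, T.aff ν1' ν2' n (g • d) = T.aff ν1 ν2 n d := by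
  induction n with
  | zero => intro d; rw [aff_zero, aff_zero, h1, h2]
  | succ n ih =>
    intro d
    rw [aff_succ, aff_succ]
    refine Finset.sum_bij' (fun c _ => g⁻¹ • c) (fun c _ => g • c) ?_ ?_ ?_ ?_ ?_
    · intro c hc
      rw [mem_children] at hc ⊢
      refine ⟨?_, ?_⟩
      · rw [smul_fst, hc.1, smul_snd, inv_smul_smul]
      · intro h
        apply hc.2
        rw [smul_symm, ← h, smul_inv_smul]
    · intro c hc
      rw [mem_children] at hc ⊢
      refine ⟨?_, ?_⟩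
      · rw [smul_fst, hc.1, smul_snd]
      · intro h
        apply hc.2
        rw [smul_symm] at h
        exact smul_left_cancel g h
    · intro c _; exact smul_inv_smul g c
    · intro c _; exact inv_smul_smul g c
    · intro c _
      rw [← ih, smul_inv_smul]

theorem aff_scale {ν1 ν2 ν1' ν2' : Measure (Boundary N)} {a b : ℝ} (ha : 0 ≤ a) (hb : 0 ≤ b)
    (d0 : T.graph.Dart)
    (h1 : ∀ c : T.graph.Dart, T.halfTree c ⊆ T.halfTree d0 →
      (ν1' (T.shadow c)).toReal = a * (ν1 (T.shadow c)).toReal)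
    (h2 : ∀ c : T.graph.Dart, T.halfTree c ⊆ T.halfTree d0 →
      (ν2' (T.shadow c)).toReal = b * (ν2 (T.shadow c)).toReal) (n : ℕ) :
    ∀ d : T.graph.Dart, T.halfTree d ⊆ T.halfTree d0 →
      T.aff ν1' ν2' n d = √(a * b) * T.aff ν1 ν2 n d := by
  induction n with
  | zero =>
    intro d hd
    rw [aff_zero, aff_zero, h1 d hd, h2 d hd, ← Real.sqrt_mul (mul_nonneg ha hb)]
    congr 1
    ring
  | succ n ih =>
    intro d hd
    rw [aff_succ, aff_succ, Finset.mul_sum]
    apply Finset.sum_congr rfl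
    intro c hc
    rw [mem_children] at hc
    exact ih c ((child_subset hc.1 hc.2).trans hd)

theorem busemann_of_not_mem {d : T.graph.Dart} {u : T.V} (hu : u ∉ T.halfTree d)
    {ξ : Boundary N} (hξ : ξ ∈ T.shadow d) : T.busemann ξ u d.fst = T.dist u d.fst := by
  obtain ⟨n, h1, h2⟩ := ((T.eventually_busemann ξ u d.fst u).and (hξ u)).exists
  rw [← h1, T.fst_on_path hu h2]
  ring

theorem ps_scale {ν : T.V → Measure (Boundary N)} (hν : T.IsPattersonSullivan ν) (x y : T.V)
    {B : Set (Boundary N)} (hB : MeasurableSet B) (k : ℝ)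
    (h : ∀ ξ ∈ B, T.busemann ξ y x = k) :
    ν y B = ENNReal.ofReal (Real.exp (-(T.critExp * k))) * ν x B := by
  rw [hν.conformal x y, withDensity_apply _ hB, ← setLIntegral_const]
  apply setLIntegral_congr_fun hB
  intro ξ hξ
  show ENNReal.ofReal (Real.exp (-T.critExp * T.busemann ξ y x)) = _
  rw [h ξ hξ, neg_mul]

theorem ps_scale_toReal {ν : T.V → Measure (Boundary N)} (hν : T.IsPattersonSullivan ν)
    (x y : T.V) {B : Set (Boundary N)} (hB : MeasurableSet B) (k : ℝ)
    (h : ∀ ξ ∈ B, T.busemann ξ y x = k) :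
    (ν y B).toReal = Real.exp (-(T.critExp * k)) * (ν x B).toReal := by
  rw [ps_scale hν x y hB k h, ENNReal.toReal_mul, ENNReal.toReal_ofReal (Real.exp_pos _).le]

theorem sepF_mid {d : T.graph.Dart} {x z : T.V} (hx : x ∉ T.halfTree d) (hz : z ∈ T.halfTree d) :
    T.sepF x d.snd ⊆ T.sepF x z := by
  intro e he
  rw [mem_sepF] at he ⊢
  refine ⟨he.1, ?_⟩
  rcases halfTree_cases d e with h | h | h | h
  · exact h hz
  · have h1 : d.fst ∉ T.halfTree e := fun h1 => T.fst_not_mem d (h h1)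
    have h2 := T.dart_eq_of_cross e d h1 he.2
    rw [← h2]; exact hz
  · exact absurd he.2 (h _ (T.snd_mem_halfTree d))
  · exact absurd ((T.mem_symm_iff e x).2 he.1) (h _ ((T.mem_symm_iff d x).2 hx))

theorem exists_cross_dart (χ : T.V → Prop) {x y : T.V} (p : T.graph.Walk x y) (hx : ¬ χ x)
    (hy : χ y) : ∃ c ∈ p.darts, ¬ χ c.fst ∧ χ c.snd := by
  induction p with
  | nil => exact absurd hy hx
  | @cons a b c hab p ih =>
    by_cases hb : χ b
    · exact ⟨⟨(a, b), hab⟩, by simp, hx, hb⟩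
    · obtain ⟨d, hd, h⟩ := ih hb hy
      exact ⟨d, by simp [hd], h⟩

theorem card_sepF_comm (x y : T.V) : (T.sepF x y).card = (T.sepF y x).card := by
  refine Finset.card_bij (fun e _ => e.symm) ?_ ?_ ?_
  · intro e he
    rw [mem_sepF] at he ⊢
    rw [mem_symm_iff, not_not, mem_symm_iff]
    tauto
  · intro e _ e' _ h
    have := congrArg Dart.symm h
    simpa using this
  · intro e he
    refine ⟨e.symm, ?_, by simp⟩
    rw [mem_sepF] at he ⊢
    rw [mem_symm_iff, not_not, mem_symm_iff]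
    tauto

variable {f : T.V → S.V}

theorem exists_crossBound_unif (hf : ∀ (g : FreeGroup (Fin N)) (u : T.V), f (g • u) = g • f u) :
    ∃ K : ℕ, ∀ (e : S.graph.Dart) (d d' : T.graph.Dart),
    ¬ (f d.fst ∈ S.halfTree e ↔ f d.snd ∈ S.halfTree e) →
    ¬ (f d'.fst ∈ S.halfTree e ↔ f d'.snd ∈ S.halfTree e) →
    (T.sepF d.fst d'.fst).card ≤ K := by
  obtain ⟨L, _, hL⟩ := exists_lip hf
  obtain ⟨L', hL'⟩ : ∃ L' : ℝ, ∀ e : S.graph.Dart, S.dist e.fst e.snd ≤ L' := by
    obtain ⟨L', hL'⟩ := (Set.finite_range fun q : S.DQ => S.dlen q.out).bddAbove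
    refine ⟨L', fun e => ?_⟩
    obtain ⟨g, q, rfl⟩ := S.exists_rep e
    rw [dist_fst_snd, dlen_smul]
    exact hL' ⟨q, rfl⟩
  obtain ⟨K, hK⟩ := exists_proper hf (2 * (L + L'))
  refine ⟨K, fun e d d' hd hd' => hK _ _ ?_⟩
  have h1 := dist_of_cross e L hL d hd
  have h2 := dist_of_cross e L hL d' hd'
  have h3 := S.dist_triangle (f d.fst) e.fst (f d'.fst)
  have h4 := S.dist_comm e.fst (f d.fst)
  have h5 := hL' e
  linarith

/-- The darts of `S` that separate `f d.snd` from both `f u` and `ξ` lie in a finite set that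
depends on `d` only. -/
theorem exists_finite_sep (hr : T.IsReduced)
    (hf : ∀ (g : FreeGroup (Fin N)) (u : T.V), f (g • u) = g • f u) (d : T.graph.Dart) :
    ∃ Q : Finset S.graph.Dart, ∀ u : T.V, u ∉ T.halfTree d → ∀ ξ ∈ T.shadow d,
      ∀ e : S.graph.Dart, f u ∉ S.halfTree e → f d.snd ∈ S.halfTree e → ξ ∉ S.shadow e →
      e ∈ Q := by
  classical
  obtain ⟨K, hK⟩ := exists_crossBound_unif hf
  have hfin : (⋃ v ∈ {z : T.V | (T.sepF d.snd z).card ≤ K},
      {c : T.graph.Dart | c.fst = v}).Finite :=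
    (T.card_ball_finite d.snd K).biUnion fun v _ => T.darts_at_finite v
  refine ⟨hfin.toFinset.biUnion fun c => S.sepF (f c.fst) (f c.snd), ?_⟩
  intro u hu ξ hξ e he1 he2 he3
  -- the crossing before `d.snd`
  obtain ⟨p, hp⟩ := T.exists_path u d.snd
  obtain ⟨c1, hc1, hc2, hc3⟩ := exists_cross_dart (fun v => f v ∈ S.halfTree e) p he1 he2
  have hc1s := T.darts_subset_sep p hp hc1
  have hc1d : c1.fst ∉ T.halfTree d := by
    intro h
    have h1 := sepF_mid hu h (T.mem_sepF.2 hc1s)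
    rw [mem_sepF] at h1
    exact T.fst_not_mem c1 h1.2
  -- the crossing after `d.snd`
  obtain ⟨η, hη⟩ := shadow_nonempty hr d.symm
  have hη' : η ∉ T.shadow d := (T.mem_shadow_symm_iff d η).1 hη
  let u0 : T.line η ξ := ⟨d.snd, snd_mem_line hη' hξ⟩
  have hpar : ∀ n : ℕ, T.par u0 n = (T.step ξ)^[n] d.snd := by
    intro n
    have := par_add_nat u0 0 n
    rw [zero_add, par_zero] at this
    exact this
  obtain ⟨i0, hi0⟩ := side_right (fun v => f v ∈ S.halfTree e) (coboundary_finite hf e) u0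
    (ξ ∈ S.shadow e) u (eventually_side_iff hf e u ξ)
  have hex : ∃ n : ℕ, f (T.par u0 n) ∉ S.halfTree e := by
    refine ⟨i0.toNat, fun h => he3 ?_⟩
    exact (hi0 _ (Int.self_le_toNat i0)).1 h
  have hn := Nat.find_spec hex
  have hn0 : Nat.find hex ≠ 0 := by
    intro h
    rw [h] at hn
    apply hn
    rw [hpar]
    exact he2
  obtain ⟨m, hm⟩ := Nat.exists_eq_succ_of_ne_zero hn0
  have hm2 : f (T.par u0 m) ∈ S.halfTree e := by
    by_contra h
    exact Nat.find_min hex (by omega) h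
  rw [hm] at hn
  have hcross2 : ¬ (f (dpar u0 m).fst ∈ S.halfTree e ↔ f (dpar u0 m).snd ∈ S.halfTree e) := by
    rw [dpar_fst, dpar_snd]
    intro h
    apply hn
    have : ((m.succ : ℕ) : ℤ) = (m : ℤ) + 1 := by push_cast; ring
    rw [this]
    exact h.1 hm2
  have hcross1 : ¬ (f c1.fst ∈ S.halfTree e ↔ f c1.snd ∈ S.halfTree e) := fun h => hc2 (h.2 hc3)
  have hcard := hK e c1 (dpar u0 m) hcross1 hcross2
  rw [dpar_fst] at hcard
  have hmem : T.par u0 m ∈ T.halfTree d := by
    rw [hpar]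
    exact T.step_iterate_mem hξ (T.snd_mem_halfTree d) m
  have hcard2 := (Finset.card_le_card (sepF_mid hc1d hmem)).trans hcard
  rw [Finset.mem_biUnion]
  refine ⟨c1, ?_, S.mem_sepF.2 ⟨hc2, hc3⟩⟩
  rw [Set.Finite.mem_toFinset, Set.mem_iUnion₂]
  refine ⟨c1.fst, ?_, rfl⟩
  show (T.sepF d.snd c1.fst).card ≤ K
  rw [card_sepF_comm]
  exact hcard2

open Classical in
theorem busemann_eq_sub (Q : Finset S.graph.Dart) (y z : S.V) (ξ : Boundary N)
    (hQ : ∀ e : S.graph.Dart, y ∉ S.halfTree e → z ∈ S.halfTree e → ξ ∉ S.shadow e → e ∈ Q) :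
    S.busemann ξ y z = S.dist y z -
      2 * ∑ e ∈ (Q.filter (fun e => e ∈ S.sepF y z)).filter (fun e => ξ ∉ S.shadow e), S.dlen e := by
  rw [busemann_eq, dist_eq_sum]
  unfold bus
  have h1 : (Q.filter (fun e => e ∈ S.sepF y z)).filter (fun e => ξ ∉ S.shadow e) =
      (S.sepF y z).filter (fun e => ξ ∉ S.shadow e) := by
    ext e
    simp only [Finset.mem_filter, mem_sepF]
    constructor
    · tauto
    · rintro ⟨⟨h1, h2⟩, h3⟩
      exact ⟨⟨hQ e h1 h2 h3, h1, h2⟩, h3⟩
  rw [h1, Finset.sum_filter, Finset.mul_sum, ← Finset.sum_sub_distrib]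
  apply Finset.sum_congr rfl
  intro e _
  split_ifs with h2
  · ring
  · ring

variable {νT : T.V → Measure (Boundary N)} {νS : S.V → Measure (Boundary N)}

open Classical in
/-- the type of a vertex `u` behind `d` -/
noncomputable def typ (S : OuterTree N) (f : T.V → S.V) (Q : Finset S.graph.Dart)
    (d : T.graph.Dart) (u : T.V) : Finset S.graph.Dart :=
  Q.filter (fun e => e ∈ S.sepF (f u) (f d.snd))

theorem aff_type (hT : T.IsPattersonSullivan νT) (hS : S.IsPattersonSullivan νS)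
    (d : T.graph.Dart) (Q : Finset S.graph.Dart)
    (hQ : ∀ u : T.V, u ∉ T.halfTree d → ∀ ξ ∈ T.shadow d,
      ∀ e : S.graph.Dart, f u ∉ S.halfTree e → f d.snd ∈ S.halfTree e → ξ ∉ S.shadow e →
      e ∈ Q) (u u' : T.V) (hu : u ∉ T.halfTree d) (hu' : u' ∉ T.halfTree d)
    (htyp : typ S f Q d u = typ S f Q d u') :
    ∃ s : ℝ, 0 < s ∧ ∀ n, T.aff (νT u') (νS (f u')) n d = s * T.aff (νT u) (νS (f u)) n d := by
  classical
  set k1 := T.dist u' d.fst - T.dist u d.fst with hk1
  set k2 := S.dist (f u') (f d.snd) - S.dist (f u) (f d.snd) with hk2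
  refine ⟨√(Real.exp (-(T.critExp * k1)) * Real.exp (-(S.critExp * k2))),
    Real.sqrt_pos.2 (mul_pos (Real.exp_pos _) (Real.exp_pos _)), fun n => ?_⟩
  apply aff_scale (Real.exp_pos _).le (Real.exp_pos _).le d _ _ n d subset_rfl
  · intro c hc
    apply ps_scale_toReal hT u u' (T.measurableSet_shadow c)
    intro ξ hξ
    have hξd := T.shadow_mono hc hξ
    rw [T.busemann_cocycle ξ u' d.fst u, T.busemann_symm ξ d.fst u,
      busemann_of_not_mem hu hξd, busemann_of_not_mem hu' hξd]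
    rw [hk1]; ring
  · intro c hc
    apply ps_scale_toReal hS (f u) (f u') (T.measurableSet_shadow c)
    intro ξ hξ
    have hξd := T.shadow_mono hc hξ
    have h1 := busemann_eq_sub Q (f u) (f d.snd) ξ (hQ u hu ξ hξd)
    have h2 := busemann_eq_sub Q (f u') (f d.snd) ξ (hQ u' hu' ξ hξd)
    unfold typ at htyp
    rw [← htyp] at h2
    rw [S.busemann_cocycle ξ (f u') (f d.snd) (f u), S.busemann_symm ξ (f d.snd) (f u), h1, h2]
    rw [hk2]; ring

theorem finite_unif {ι : Type*} (F : Finset ι) (Pr : ι → ℕ → ℝ → Prop)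
    (hmono : ∀ i m m' r r', m ≤ m' → r ≤ r' → Pr i m r → Pr i m' r')
    (h : ∀ i ∈ F, ∃ m r, r < 1 ∧ Pr i m r) :
    ∃ m r, 0 ≤ r ∧ r < 1 ∧ ∀ i ∈ F, Pr i m r := by
  classical
  induction F using Finset.induction_on with
  | empty => exact ⟨0, 0, le_rfl, one_pos, fun i hi => absurd hi (Finset.notMem_empty i)⟩
  | insert a F _ ih =>
    obtain ⟨m1, r1, h0, h1, h2⟩ := ih fun i hi => h i (Finset.mem_insert_of_mem hi)
    obtain ⟨m2, r2, h3, h4⟩ := h a (Finset.mem_insert_self a F)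
    refine ⟨max m1 m2, max r1 r2, le_max_of_le_left h0, max_lt h1 h3, fun i hi => ?_⟩
    rw [Finset.mem_insert] at hi
    rcases hi with rfl | hi
    · exact hmono _ _ _ _ _ (le_max_right _ _) (le_max_right _ _) h4
    · exact hmono _ _ _ _ _ (le_max_left _ _) (le_max_left _ _) (h2 i hi)

variable {μ : Measure (Boundary N × Boundary N)} {c : ℝ≥0}

/-- In the equality case there is a dart behind which the two measures have full affinity. -/
theorem EqData.exists_exact (D : EqData T S νT νS f μ c) (hr : T.IsReduced) :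
    ∃ (d : T.graph.Dart) (u : T.V), u ∉ T.halfTree d ∧
      ∀ m, T.aff (νT u) (νS (f u)) m d = T.aff (νT u) (νS (f u)) 0 d := by
  classical
  by_contra hcon
  push Not at hcon
  have hfT : ∀ u, IsFiniteMeasure (νT u) := D.hT.finite
  have hfS : ∀ u, IsFiniteMeasure (νS u) := D.hS.finite
  have hNH : ∀ (d : T.graph.Dart) (u : T.V), u ∉ T.halfTree d →
      ∃ m, T.aff (νT u) (νS (f u)) m d < T.aff (νT u) (νS (f u)) 0 d := by
    intro d u hu
    obtain ⟨m, hm⟩ := hcon d u hu
    exact ⟨m, lt_of_le_of_ne (aff_antitone d (Nat.zero_le m)) hm⟩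
  have h1 : ∀ d : T.graph.Dart, ∃ (m : ℕ) (r : ℝ), r < 1 ∧ ∀ u, u ∉ T.halfTree d →
      T.aff (νT u) (νS (f u)) m d ≤ r * T.aff (νT u) (νS (f u)) 0 d := by
    intro d
    obtain ⟨Q, hQ⟩ := exists_finite_sep hr D.hf d
    obtain ⟨m, r, _, hr1, hmr⟩ := finite_unif Q.powerset
      (fun P m r => ∀ u, u ∉ T.halfTree d → typ S f Q d u = P →
        T.aff (νT u) (νS (f u)) m d ≤ r * T.aff (νT u) (νS (f u)) 0 d)
      (by
        intro P m m' r r' hm hr' h u hu hP
        refine (aff_antitone d hm).trans ((h u hu hP).trans ?_)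
        exact mul_le_mul_of_nonneg_right hr' (aff_nonneg 0 d))
      (by
        intro P _
        by_cases hex : ∃ u0, u0 ∉ T.halfTree d ∧ typ S f Q d u0 = P
        · obtain ⟨u0, hu0, hP0⟩ := hex
          obtain ⟨m, hm⟩ := hNH d u0 hu0
          have h0 : 0 < T.aff (νT u0) (νS (f u0)) 0 d := lt_of_le_of_lt (aff_nonneg m d) hm
          refine ⟨m, T.aff (νT u0) (νS (f u0)) m d / T.aff (νT u0) (νS (f u0)) 0 d,
            (div_lt_one h0).2 hm, ?_⟩
          intro u hu hP
          obtain ⟨s, hs, hsn⟩ := aff_type D.hT D.hS d Q hQ u0 u hu0 hu (hP0.trans hP.symm)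
          rw [hsn m, hsn 0]
          apply le_of_eq
          field_simp
        · refine ⟨0, 0, one_pos, ?_⟩
          intro u hu hP
          exact absurd ⟨u, hu, hP⟩ hex)
    refine ⟨m, r, hr1, fun u hu => hmr _ ?_ u hu rfl⟩
    rw [Finset.mem_powerset]
    exact Finset.filter_subset _ _
  have hfin := Fintype.ofFinite T.DQ
  obtain ⟨m, r, hr0, hr1, hmr⟩ := finite_unif (Finset.univ : Finset T.DQ)
    (fun q m r => ∀ u, u ∉ T.halfTree q.out →
      T.aff (νT u) (νS (f u)) m q.out ≤ r * T.aff (νT u) (νS (f u)) 0 q.out)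
    (by
      intro q m m' r r' hm hr' h u hu
      refine (aff_antitone _ hm).trans ((h u hu).trans ?_)
      exact mul_le_mul_of_nonneg_right hr' (aff_nonneg 0 _))
    (fun q _ => h1 q.out)
  have h2 : ∀ (u : T.V) (d : T.graph.Dart), u ∉ T.halfTree d →
      T.aff (νT u) (νS (f u)) m d ≤ r * T.aff (νT u) (νS (f u)) 0 d := by
    intro u d hu
    obtain ⟨g, q, rfl⟩ := T.exists_rep d
    have hsm : ∀ n, T.aff (νT u) (νS (f u)) n (g • q.out) =
        T.aff (νT (g⁻¹ • u)) (νS (f (g⁻¹ • u))) n q.out := by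
      intro n
      apply aff_smul_of g
      · intro d'
        have := map_apply' D.hT g (g⁻¹ • u) (T.measurableSet_shadow (g • d'))
        rw [smul_inv_smul] at this
        rw [this]
        congr 1
        ext ξ
        exact T.smul_mem_shadow g d' ξ
      · intro d'
        have := map_apply' D.hS g (g⁻¹ • f u) (T.measurableSet_shadow (g • d'))
        rw [smul_inv_smul] at this
        rw [this, D.hf]
        congr 1
        ext ξ
        exact T.smul_mem_shadow g d' ξ
    rw [hsm, hsm]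
    apply hmr q (Finset.mem_univ q)
    rw [T.mem_halfTree_smul] at hu
    exact hu
  obtain ⟨u, κ, η, hκ0, hκt, hη0, hη⟩ := D.good
  have hηt : η ≠ ∞ := ne_top_of_le_ne_top (measure_ne_top _ _) (hη 0)
  have hηpos : 0 < η.toReal := ENNReal.toReal_pos hη0 hηt
  have hκpos : 0 < κ.toReal := ENNReal.toReal_pos hκ0 hκt
  have hlow : ∀ n, √κ.toReal * η.toReal ≤
      ∑ d ∈ T.dartsAt u, T.aff (νT u) (νS (f u)) n d := by
    intro n
    refine le_trans ?_ (le_sum_aff κ n u)
    apply mul_le_mul_of_nonneg_left _ (Real.sqrt_nonneg _)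
    exact ENNReal.toReal_mono (measure_ne_top _ _) (hη n)
  set A := ∑ d ∈ T.dartsAt u, T.aff (νT u) (νS (f u)) 0 d with hA
  have hA0 : 0 ≤ A := Finset.sum_nonneg fun d _ => aff_nonneg 0 d
  have hup : ∀ k, √κ.toReal * η.toReal ≤ r ^ k * A := by
    intro k
    refine (hlow (k * m)).trans ?_
    rw [hA, Finset.mul_sum]
    apply Finset.sum_le_sum
    intro d hd
    rw [mem_dartsAt] at hd
    apply aff_contract_pow u m hr0 (fun d hd => h2 u d hd)
    rw [← hd]
    exact T.fst_not_mem d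
  have hpos : 0 < √κ.toReal * η.toReal := mul_pos (Real.sqrt_pos.2 hκpos) hηpos
  obtain ⟨k, hk⟩ := exists_pow_lt_of_lt_one
    (show 0 < √κ.toReal * η.toReal / (A + 1) from div_pos hpos (by linarith)) hr1
  have h3 : r ^ k * A ≤ r ^ k * (A + 1) :=
    mul_le_mul_of_nonneg_left (by linarith) (pow_nonneg hr0 k)
  have h4 : r ^ k * (A + 1) < √κ.toReal * η.toReal := by
    rwa [lt_div_iff₀ (by linarith)] at hk
  linarith [hup k]

end OuterTree

end Pool.Agent.OuterSpace
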