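import Pool.Agent.Lib.MP_fee052_al.Finite

open SimpleGraph MeasureTheory Filter Topology
open scoped ENNReal NNReal

namespace Pool.Agent.OuterSpace.Boundary

variable {N : ℕ}

/-- the letters of the product of an initial segment of `η` with a compatible word `ζ` -/
theorem pre_smul_letter (η : Boundary N) (n : ℕ) : ∀ ζ : Boundary N,
    (n ≠ 0 → (η.letter (n - 1)).1 = (ζ.letter 0).1 → (η.letter (n - 1)).2 = (ζ.letter 0).2) →
    (∀ i < n, (η.pre n • ζ).letter i = η.letter i) ∧
      ∀ j, (η.pre n • ζ).letter (n + j) = ζ.letter j := by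
  induction n with
  | zero =>
    intro ζ _
    refine ⟨fun i hi => absurd hi (Nat.not_lt_zero _), fun j => ?_⟩
    rw [pre_zero, one_smul, zero_add]
  | succ n ih =>
    intro ζ h
    have hc : (η.letter n).1 = (ζ.letter 0).1 → (η.letter n).2 = (ζ.letter 0).2 :=
      h (Nat.succ_ne_zero n)
    have h1 : FreeGroup.mk [η.letter n] • ζ = cons (η.letter n) ζ hc := by
      rw [smul_mk_singleton]
      exact dif_pos hc
    obtain ⟨h2, h3⟩ := ih (cons (η.letter n) ζ hc) (by
      intro hm0
      show (η.letter (n - 1)).1 = (η.letter n).1 → (η.letter (n - 1)).2 = (η.letter n).2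
      obtain ⟨m', rfl⟩ := Nat.exists_eq_succ_of_ne_zero hm0
      exact η.reduced m')
    rw [pre_succ, mul_smul, h1]
    refine ⟨?_, ?_⟩
    · intro i hi
      by_cases him : i < n
      · exact h2 i him
      · have : i = n + 0 := by omega
        rw [this, h3 0]
        rfl
    · intro j
      have : n + 1 + j = n + (j + 1) := by ring
      rw [this, h3 (j + 1)]
      rfl

theorem ext_letter {ξ ζ : Boundary N} (h : ∀ n, ξ.letter n = ζ.letter n) : ξ = ζ := by
  cases ξ; cases ζ
  congr
  funext n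
  exact h n

theorem pre_smul_drop (η : Boundary N) (n : ℕ) : η.pre n • η.drop n = η := by
  obtain ⟨h1, h2⟩ := pre_smul_letter η n (η.drop n) (by
    intro hn
    obtain ⟨m, rfl⟩ := Nat.exists_eq_succ_of_ne_zero hn
    exact η.reduced m)
  apply ext_letter
  intro i
  by_cases hi : i < n
  · exact h1 i hi
  · obtain ⟨j, rfl⟩ : ∃ j, i = n + j := ⟨i - n, by omega⟩
    rw [h2 j]
    rfl

/-- the inverse of a letter -/
def inv (a : Fin N × Bool) : Fin N × Bool := (a.1, !a.2)

theorem mk_inv (a : Fin N × Bool) : (FreeGroup.mk [a])⁻¹ = FreeGroup.mk [inv a] := by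
  rw [FreeGroup.inv_mk]; rfl

theorem pre_congr {ξ ζ : Boundary N} {n : ℕ} (h : ∀ i < n, ξ.letter i = ζ.letter i) :
    ξ.pre n = ζ.pre n := by
  unfold pre
  congr 1
  apply List.map_congr_left
  intro i hi
  exact h i (List.mem_range.1 hi)

/-- Outside the cylinder of the first `n + 1` letters of `ω`, nothing but the first letters
cancels under the inverse of this initial segment. -/
theorem inv_pre_smul_letter (ω : Boundary N) (n : ℕ) : ∀ ζ : Boundary N,
    (∃ i < n + 1, ζ.letter i ≠ ω.letter i) →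
    ((ω.pre (n + 1))⁻¹ • ζ).letter 0 = inv (ω.letter n) := by
  have step : ∀ (a : Fin N × Bool) (ζ : Boundary N), ζ.letter 0 ≠ a →
      ((FreeGroup.mk [a])⁻¹ • ζ).letter 0 = inv a := by
    intro a ζ h
    rw [mk_inv, smul_mk_singleton]
    unfold letterMul
    rw [dif_pos]
    · rfl
    · intro h1
      by_contra h2
      apply h
      have h3 : (ζ.letter 0).1 = a.1 := h1.symm
      refine Prod.ext h3 ?_
      revert h2
      unfold inv
      cases a.2 <;> cases (ζ.letter 0).2 <;> simp
  induction n with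
  | zero =>
    rintro ζ ⟨i, hi, h⟩
    have : i = 0 := by omega
    subst this
    rw [pre_succ, pre_zero, one_mul]
    exact step _ ζ h
  | succ n ih =>
    intro ζ h
    rw [pre_succ, mul_inv_rev, mul_smul]
    apply step
    by_cases h1 : ∃ i < n + 1, ζ.letter i ≠ ω.letter i
    · rw [ih ζ h1]
      intro h2
      have h3 := ω.reduced n
      rw [← h2] at h3
      unfold inv at h3
      simp at h3
    · push Not at h1
      have h2 : (ω.pre (n + 1))⁻¹ • ζ = ζ.drop (n + 1) := by
        rw [← pre_congr h1]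
        conv_lhs => rw [← pre_smul_drop ζ (n + 1)]
        rw [← mul_smul]
        have h3 : (ζ.pre (n + 1) • ζ.drop (n + 1)).pre (n + 1) = ζ.pre (n + 1) := by
          rw [pre_smul_drop]
        rw [h3, inv_mul_cancel, one_smul]
      rw [h2]
      obtain ⟨i, hi, h3⟩ := h
      have h4 : i = n + 1 := by
        by_contra h5
        exact h3 (h1 i (by omega))
      subst h4
      exact h3

/-- cylinder neighbourhoods -/
theorem exists_cylinder {U : Set (Boundary N)} (hU : IsOpen U) {η : Boundary N} (hη : η ∈ U) :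
    ∃ n, ∀ ζ : Boundary N, (∀ i < n, ζ.letter i = η.letter i) → ζ ∈ U := by
  rw [isOpen_induced_iff] at hU
  obtain ⟨W, hW, hWU⟩ := hU
  have h1 : η.letter ∈ W := by rw [← hWU] at hη; exact hη
  rw [isOpen_pi_iff] at hW
  obtain ⟨I, u, hu, hIu⟩ := hW _ h1
  obtain ⟨n, hn⟩ : ∃ n, ∀ i ∈ I, i < n := by
    obtain ⟨n, hn⟩ := I.bddAbove
    exact ⟨n + 1, fun i hi => Nat.lt_succ_of_le (hn hi)⟩
  refine ⟨n, fun ζ hζ => ?_⟩
  rw [← hWU]
  apply hIu
  intro i hi
  rw [hζ i (hn i hi)]
  exact (hu i hi).2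

/-- The action of the free group on its boundary is extremely proximal: the complement of any
nonempty open set can be moved into any nonempty open set. -/
theorem exists_smul_compl (hN : 2 ≤ N) {U V : Set (Boundary N)} (hU : IsOpen U)
    (hUne : U.Nonempty) (hV : IsOpen V) (hVne : V.Nonempty) :
    ∃ g : FreeGroup (Fin N), ∀ ζ, ζ ∉ V → g • ζ ∈ U := by
  obtain ⟨η, hη⟩ := hUne
  obtain ⟨ω, hω⟩ := hVne
  obtain ⟨m, hm⟩ := exists_cylinder hU hη
  obtain ⟨n, hn⟩ := exists_cylinder hV hω
  obtain ⟨c, hc1, hc2⟩ := exists_letter hN (η.letter m) (inv (ω.letter n))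
  refine ⟨η.pre (m + 1) * FreeGroup.mk [c] * (ω.pre (n + 1))⁻¹, fun ζ hζ => ?_⟩
  have h1 : ∃ i < n + 1, ζ.letter i ≠ ω.letter i := by
    by_contra hcon
    push Not at hcon
    exact hζ (hn ζ fun i hi => hcon i (by omega))
  have h2 := inv_pre_smul_letter ω n ζ h1
  rw [mul_smul, mul_smul]
  set ζ' := (ω.pre (n + 1))⁻¹ • ζ with hζ'
  have hc3 : c.1 = (ζ'.letter 0).1 → c.2 = (ζ'.letter 0).2 := by rw [h2]; exact hc2
  have h3 : FreeGroup.mk [c] • ζ' = cons c ζ' hc3 := by
    rw [smul_mk_singleton]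
    exact dif_pos hc3
  rw [h3]
  obtain ⟨h4, _⟩ := pre_smul_letter η (m + 1) (cons c ζ' hc3) (fun _ => hc1)
  exact hm _ fun i hi => h4 i (by omega)

theorem range_letter_closed : IsClosed (Set.range (letter : Boundary N → ℕ → Fin N × Bool)) := by
  have h1 : Set.range (letter : Boundary N → ℕ → Fin N × Bool) =
      ⋂ n : ℕ, {w : ℕ → Fin N × Bool | (w n).1 = (w (n + 1)).1 → (w n).2 = (w (n + 1)).2} := by
    ext w
    rw [Set.mem_iInter]
    constructor
    · rintro ⟨ξ, rfl⟩ n
      exact ξ.reduced n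
    · intro h
      exact ⟨⟨w, h⟩, rfl⟩
  rw [h1]
  apply isClosed_iInter
  intro n
  have h2 : {w : ℕ → Fin N × Bool | (w n).1 = (w (n + 1)).1 → (w n).2 = (w (n + 1)).2} =
      (fun w : ℕ → Fin N × Bool => (w n, w (n + 1))) ⁻¹'
        {p : (Fin N × Bool) × (Fin N × Bool) | p.1.1 = p.2.1 → p.1.2 = p.2.2} := rfl
  rw [h2]
  exact (isClosed_discrete _).preimage ((continuous_apply n).prodMk (continuous_apply (n + 1)))

instance : CompactSpace (Boundary N) := by
  have h : IsClosedEmbedding (letter : Boundary N → ℕ → Fin N × Bool) :=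
    { toIsEmbedding := ⟨⟨rfl⟩, fun ξ ζ h => ext_letter fun n => congrFun h n⟩
      isClosed_range := range_letter_closed }
  exact h.compactSpace

end Pool.Agent.OuterSpace.Boundary
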